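import Mathlib

/-!
# Second order expansions in the relative eigenvalues (cone rigidity)
-/

noncomputable section

namespace KBR.CR

open Finset

variable {n : ℕ}

theorem log_bound {x : ℝ} (hx : |x| ≤ 1 / 8) : |Real.log (1 + x) - x + x ^ 2 / 2| ≤ 2 * |x| ^ 3 := by
  have h := Real.abs_log_sub_add_sum_range_le (x := -x) (by rw [abs_neg]; linarith) 2
  simp only [sum_range_succ, sum_range_zero, zero_add, sub_neg_eq_add, abs_neg] at h
  norm_num at h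
  have h1 : |x| ^ 3 / (1 - |x|) ≤ 2 * |x| ^ 3 := by
    rw [div_le_iff₀ (by linarith)]
    have h3 : 0 ≤ |x| ^ 3 := by positivity
    nlinarith
  refine le_trans (le_of_eq ?_) (h.trans h1)
  congr 1
  ring

theorem exp_bound3 {x : ℝ} (hx : |x| ≤ 1) : |Real.exp x - 1 - x - x ^ 2 / 2| ≤ |x| ^ 3 := by
  have h := Real.exp_bound hx (n := 3) (by norm_num)
  simp only [sum_range_succ, sum_range_zero, zero_add] at h
  norm_num [Nat.factorial] at h
  have h3 : 0 ≤ |x| ^ 3 := by positivity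
  have h4 : |Real.exp x - (1 + x + x ^ 2 / 2)| ≤ |x| ^ 3 := by
    refine h.trans ?_
    nlinarith
  refine le_trans (le_of_eq ?_) h4
  congr 1
  ring

/-- basic bounds -/
theorem basics (e : Fin n → ℝ) {ε : ℝ} (hε : 0 < ε) (he : ∀ i, |e i| ≤ ε) :
    |∑ i, e i| ≤ (n + 1) * ε ∧ 0 ≤ ∑ i, e i ^ 2 ∧ ∑ i, e i ^ 2 ≤ (n + 1) * ε * ε ∧
      (∑ i, e i) ^ 2 ≤ (n + 1) * ∑ i, e i ^ 2 := by
  have h2 : 0 ≤ ∑ i, e i ^ 2 := sum_nonneg fun i _ => sq_nonneg _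
  refine ⟨?_, h2, ?_, ?_⟩
  · refine (abs_sum_le_sum_abs _ _).trans ?_
    refine (sum_le_sum fun i _ => he i).trans ?_
    simp only [sum_const, card_univ, Fintype.card_fin, nsmul_eq_mul]
    nlinarith
  · have : ∀ i ∈ (univ : Finset (Fin n)), e i ^ 2 ≤ ε * ε := fun i _ => by
      rw [← sq_abs]
      nlinarith [he i, abs_nonneg (e i)]
    refine (sum_le_sum this).trans ?_
    simp only [sum_const, card_univ, Fintype.card_fin, nsmul_eq_mul]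
    nlinarith [mul_pos hε hε]
  · have h := sq_sum_le_card_mul_sum_sq (s := (univ : Finset (Fin n))) (f := e)
    simp only [card_univ, Fintype.card_fin] at h
    nlinarith

theorem f_bound (e : Fin n → ℝ) {ε : ℝ} (hε : 0 < ε) (hNε : (n + 1) * ε ≤ 1 / 8)
    (he : ∀ i, |e i| ≤ ε) :
    |Real.sqrt (∏ i, (1 + e i)) - (1 + (∑ i, e i) / 2 - (∑ i, e i ^ 2) / 4 + (∑ i, e i) ^ 2 / 8)| ≤
      3 * (n + 1) ^ 2 * ε * ∑ i, e i ^ 2 := by
  obtain ⟨h1, h2, h3, h4⟩ := basics e hε he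
  set σ := ∑ i, e i with hσ
  set τ := ∑ i, e i ^ 2 with hτ
  set N : ℝ := n + 1 with hN
  have hN1 : 1 ≤ N := by rw [hN]; have := Nat.cast_nonneg (α := ℝ) n; linarith
  have hε8 : ε ≤ 1 / 8 := by nlinarith
  have he8 : ∀ i, |e i| ≤ 1 / 8 := fun i => (he i).trans hε8
  have hpos : ∀ i, 0 < 1 + e i := fun i => by
    have := (abs_le.mp (he8 i)).1
    linarith
  set L : ℝ := (∑ i, Real.log (1 + e i)) / 2 with hL
  have hfL : Real.sqrt (∏ i, (1 + e i)) = Real.exp L := by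
    have h5 : ∏ i, (1 + e i) = Real.exp L ^ 2 := by
      rw [← Real.exp_nat_mul, hL]
      have : ((2 : ℕ) : ℝ) * ((∑ i, Real.log (1 + e i)) / 2) = ∑ i, Real.log (1 + e i) := by
        push_cast; ring
      rw [this, Real.exp_sum]
      exact prod_congr rfl fun i _ => (Real.exp_log (hpos i)).symm
    rw [h5, Real.sqrt_sq (Real.exp_pos _).le]
  have hd : |L - σ / 2 + τ / 4| ≤ ε * τ := by
    have h5 : L - σ / 2 + τ / 4 = (∑ i, (Real.log (1 + e i) - e i + e i ^ 2 / 2)) / 2 := by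
      rw [sum_add_distrib, sum_sub_distrib, ← sum_div]
      ring
    rw [h5, abs_div, abs_of_pos (by norm_num : (0 : ℝ) < 2), div_le_iff₀ (by norm_num)]
    refine (abs_sum_le_sum_abs _ _).trans ?_
    have h6 : ∀ i ∈ (univ : Finset (Fin n)),
        |Real.log (1 + e i) - e i + e i ^ 2 / 2| ≤ 2 * ε * e i ^ 2 := fun i _ => by
      refine (log_bound (he8 i)).trans ?_
      rw [← sq_abs (e i)]
      nlinarith [he i, abs_nonneg (e i), sq_nonneg |e i|]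
    refine (sum_le_sum h6).trans ?_
    rw [← mul_sum]
    linarith
  have hτ8 : τ ≤ ε / 8 := by nlinarith
  have hσ8 : |σ| ≤ 1 / 8 := h1.trans hNε
  have hετ : ε * τ ≤ τ / 8 := by nlinarith
  have hLd : |L - σ / 2| ≤ τ / 2 := by
    have h5 : L - σ / 2 = (L - σ / 2 + τ / 4) - τ / 4 := by ring
    rw [h5]
    refine (abs_sub _ _).trans ?_
    rw [abs_of_nonneg (by positivity : 0 ≤ τ / 4)]
    linarith
  have hLabs : |L| ≤ |σ| / 2 + τ / 2 := by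
    have h7 : |σ / 2| = |σ| / 2 := by rw [abs_div, abs_of_pos (by norm_num : (0 : ℝ) < 2)]
    calc |L| = |(L - σ / 2) + σ / 2| := by congr 1; ring
      _ ≤ |L - σ / 2| + |σ / 2| := abs_add_le _ _
      _ ≤ |σ| / 2 + τ / 2 := by rw [h7]; linarith
  have hL1 : |L| ≤ 1 := by linarith
  have hLNε : |L| ≤ N * ε := by
    have : ε ≤ N * ε := by nlinarith
    linarith
  have hσsq : σ ^ 2 = |σ| ^ 2 := (sq_abs σ).symm
  have hL2 : L ^ 2 ≤ N * τ := by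
    rw [← sq_abs L]
    have h5 : |L| ^ 2 ≤ (|σ| / 2 + τ / 2) ^ 2 := by
      apply pow_le_pow_left₀ (abs_nonneg _) hLabs
    have h6 : (|σ| / 2 + τ / 2) ^ 2 ≤ σ ^ 2 / 2 + τ ^ 2 / 2 := by
      rw [hσsq]; nlinarith [sq_nonneg (|σ| - τ)]
    have h7 : τ ^ 2 ≤ τ := by nlinarith
    nlinarith
  have hL3 : |L| ^ 3 ≤ N ^ 2 * ε * τ := by
    have : |L| ^ 3 = |L| * L ^ 2 := by rw [← sq_abs L]; ring
    rw [this]
    calc |L| * L ^ 2 ≤ (N * ε) * (N * τ) :=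
          mul_le_mul hLNε hL2 (sq_nonneg _) (by positivity)
      _ = N ^ 2 * ε * τ := by ring
  have hLsq : |L ^ 2 - σ ^ 2 / 4| ≤ N * ε * τ := by
    have h5 : L ^ 2 - σ ^ 2 / 4 = (L - σ / 2) * (L + σ / 2) := by ring
    rw [h5, abs_mul]
    have h7 : |σ / 2| = |σ| / 2 := by rw [abs_div, abs_of_pos (by norm_num : (0 : ℝ) < 2)]
    have h6 : |L + σ / 2| ≤ 2 * (N * ε) := by
      refine (abs_add_le _ _).trans ?_
      rw [h7]
      linarith [abs_nonneg σ]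
    calc |L - σ / 2| * |L + σ / 2| ≤ (τ / 2) * (2 * (N * ε)) :=
          mul_le_mul hLd h6 (abs_nonneg _) (by positivity)
      _ = N * ε * τ := by ring
  have hexp := exp_bound3 hL1
  rw [hfL]
  have h8 : Real.exp L - (1 + σ / 2 - τ / 4 + σ ^ 2 / 8) =
      (Real.exp L - 1 - L - L ^ 2 / 2) + ((L - σ / 2 + τ / 4) + (L ^ 2 - σ ^ 2 / 4) / 2) := by ring
  rw [h8]
  have h9 : |(L ^ 2 - σ ^ 2 / 4) / 2| ≤ N * ε * τ := by
    rw [abs_div, abs_of_pos (by norm_num : (0 : ℝ) < 2)]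
    have : 0 ≤ N * ε * τ := by positivity
    linarith
  refine (abs_add_le _ _).trans ((add_le_add (hexp.trans hL3)
    ((abs_add_le _ _).trans (add_le_add hd h9))).trans ?_)
  have h11 : 0 ≤ ε * τ := by positivity
  have hN2 : N ≤ N ^ 2 := by nlinarith
  have h10 : ε * τ ≤ N ^ 2 * ε * τ := by
    have : 1 * (ε * τ) ≤ N ^ 2 * (ε * τ) := mul_le_mul_of_nonneg_right (hN1.trans hN2) h11
    linarith
  have h12 : N * ε * τ ≤ N ^ 2 * ε * τ := by
    have : N * (ε * τ) ≤ N ^ 2 * (ε * τ) := mul_le_mul_of_nonneg_right hN2 h11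
    linarith
  linarith

theorem S_bound (e : Fin n → ℝ) {ε : ℝ} (hε : 0 < ε) (hε8 : ε ≤ 1 / 8)
    (he : ∀ i, |e i| ≤ ε) :
    |(∑ i, e i / (1 + e i)) - ∑ i, e i + ∑ i, e i ^ 2| ≤ 2 * ε * ∑ i, e i ^ 2 ∧
      (1 - 2 * ε) * ∑ i, e i ^ 2 ≤ ∑ i, (e i / (1 + e i)) ^ 2 ∧
      ∑ i, (e i / (1 + e i)) ^ 2 ≤ 2 * ∑ i, e i ^ 2 := by
  have hpos : ∀ i, 0 < 1 + e i := fun i => by
    have := (abs_le.mp (he i)).1
    linarith
  refine ⟨?_, ?_, ?_⟩
  · rw [← sum_sub_distrib, ← sum_add_distrib]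
    refine (abs_sum_le_sum_abs _ _).trans ?_
    rw [mul_sum]
    refine sum_le_sum fun i _ => ?_
    have h1 : e i / (1 + e i) - e i + e i ^ 2 = e i ^ 2 * (e i / (1 + e i)) := by
      field_simp [(hpos i).ne']; ring
    rw [h1, abs_mul, abs_of_nonneg (sq_nonneg (e i)), abs_div, abs_of_pos (hpos i)]
    have h2 : |e i| / (1 + e i) ≤ 2 * ε := by
      rw [div_le_iff₀ (hpos i)]
      have := (abs_le.mp (he i)).1
      nlinarith [he i]
    nlinarith [sq_nonneg (e i)]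
  · rw [mul_sum]
    refine sum_le_sum fun i _ => ?_
    rw [div_pow, le_div_iff₀ (by have := hpos i; positivity)]
    have h3 := (abs_le.mp (he i)).2
    have h4 : (1 - 2 * ε) * (1 + e i) ^ 2 ≤ 1 := by
      have h5 : (1 + e i) ^ 2 ≤ (1 + ε) ^ 2 := by
        apply pow_le_pow_left₀ (hpos i).le; linarith
      have h6 : 0 ≤ 1 - 2 * ε := by linarith
      have h7 : (1 - 2 * ε) * (1 + ε) ^ 2 = 1 - 3 * ε ^ 2 - 2 * ε ^ 3 := by ring
      have h8 : 0 ≤ ε ^ 2 := by positivity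
      have h9 : 0 ≤ ε ^ 3 := by positivity
      calc (1 - 2 * ε) * (1 + e i) ^ 2 ≤ (1 - 2 * ε) * (1 + ε) ^ 2 :=
            mul_le_mul_of_nonneg_left h5 h6
        _ ≤ 1 := by rw [h7]; linarith
    nlinarith [sq_nonneg (e i)]
  · rw [mul_sum]
    refine sum_le_sum fun i _ => ?_
    rw [div_pow, div_le_iff₀ (by have := hpos i; positivity)]
    have h3 := (abs_le.mp (he i)).1
    have h4 : 1 ≤ 2 * (1 + e i) ^ 2 := by nlinarith
    nlinarith [sq_nonneg (e i)]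

theorem alg_A {N σ τ ε f : ℝ} (hN : 1 ≤ N) (hε : 0 < ε) (hτ0 : 0 ≤ τ)
    (hσ2 : σ ^ 2 ≤ N * τ)
    (hf : |f - (1 + σ / 2 - τ / 4 + σ ^ 2 / 8)| ≤ 3 * N ^ 2 * ε * τ) :
    1 / 2 * (N + 1) * σ - (1 - 2 * ε) / 8 * (2 * τ + σ ^ 2) - (N + 1) * (f - 1) ≤
      N / 4 * τ - (N + 2) / 8 * σ ^ 2 + 10 * N ^ 3 * (ε * τ) := by
  have h1 := (abs_le.mp hf).1
  have hετ : 0 ≤ ε * τ := by positivity
  have h2 : (N + 1) * (3 * N ^ 2 * ε * τ) ≤ 6 * N ^ 3 * (ε * τ) := by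
    have : (N + 1) * (3 * N ^ 2) ≤ 6 * N ^ 3 := by nlinarith [sq_nonneg N]
    nlinarith
  have h3 : (2 * ε) / 8 * (2 * τ + σ ^ 2) ≤ N ^ 3 * (ε * τ) := by
    have h4 : 2 * τ + σ ^ 2 ≤ 3 * N * τ := by nlinarith
    have h5 : (2 * ε) / 8 * (2 * τ + σ ^ 2) ≤ (2 * ε) / 8 * (3 * N * τ) :=
      mul_le_mul_of_nonneg_left h4 (by positivity)
    have h6 : N ≤ N ^ 3 := by nlinarith [sq_nonneg N, sq_nonneg (N - 1)]
    nlinarith
  have h7 : 0 ≤ N ^ 3 * (ε * τ) := by positivity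
  have h8 : (N + 1) * (1 + σ / 2 - τ / 4 + σ ^ 2 / 8 - 3 * N ^ 2 * ε * τ) ≤ (N + 1) * f := by
    apply mul_le_mul_of_nonneg_left _ (by linarith)
    linarith
  nlinarith

theorem alg_B {N σ τ ε f S1 S2 : ℝ} (hN : 1 ≤ N) (hε : 0 < ε) (hNε : N * ε ≤ 1 / 8)
    (hσ : |σ| ≤ N * ε) (hτ0 : 0 ≤ τ) (hτ : τ ≤ N * ε * ε)
    (hσ2 : σ ^ 2 ≤ N * τ) (hS1 : |S1 - σ + τ| ≤ 2 * ε * τ) (hS2 : (1 - 2 * ε) * τ ≤ S2)
    (hS2' : S2 ≤ 2 * τ)
    (hf : |f - (1 + σ / 2 - τ / 4 + σ ^ 2 / 8)| ≤ 3 * N ^ 2 * ε * τ) :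
    1 / 2 * (N + 1) * σ - (1 - 2 * ε) / 8 * (2 * τ + σ ^ 2) +
      f * (1 / 2 * (N + 1) * (-S1) - (1 - 2 * ε) / 8 * (2 * S2 + S1 ^ 2)) ≤
      N / 2 * τ - (N + 2) / 4 * σ ^ 2 + 20 * N ^ 3 * (ε * τ) := by
  have hετ : 0 ≤ ε * τ := by positivity
  have hε8 : ε ≤ 1 / 8 := by nlinarith
  have hτ8 : τ ≤ ε / 8 := by nlinarith
  have hετ' : ε * τ ≤ τ / 8 := by nlinarith
  set r := S1 - σ + τ with hr
  set ρ := f - (1 + σ / 2) with hρ
  have hσε : |σ| ≤ 1 / 8 := hσ.trans hNε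
  -- bound of `ρ`
  have hρb : |ρ| ≤ N * τ := by
    have h1 : ρ = (f - (1 + σ / 2 - τ / 4 + σ ^ 2 / 8)) + (σ ^ 2 / 8 - τ / 4) := by
      rw [hρ]; ring
    rw [h1]
    refine (abs_add_le _ _).trans ?_
    have h2 : |σ ^ 2 / 8 - τ / 4| ≤ N * τ / 4 + N * τ / 8 := by
      rw [abs_le]; constructor <;> nlinarith [sq_nonneg σ]
    have h3 : 3 * N ^ 2 * ε * τ ≤ 3 / 8 * (N * τ) := by
      have : 3 * N ^ 2 * ε * τ = 3 * (N * ε) * (N * τ) := by ring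
      rw [this]
      have : 0 ≤ N * τ := by positivity
      nlinarith
    have : 0 ≤ N * τ := by positivity
    linarith
  have hS1b : |S1| ≤ N * ε + 2 * τ := by
    have h1 : S1 = σ + (r - τ) := by rw [hr]; ring
    rw [h1]
    refine (abs_add_le _ _).trans ?_
    have : |r - τ| ≤ 2 * τ := by
      refine (abs_sub _ _).trans ?_
      rw [abs_of_nonneg hτ0]
      nlinarith
    linarith
  -- first product
  have hP1 : f * (-S1) ≤ -σ + τ - σ ^ 2 / 2 + 5 * N ^ 2 * (ε * τ) := by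
    have h1 : f * (-S1) = -σ + τ - σ ^ 2 / 2 + (-r + σ / 2 * (τ - r) - ρ * S1) := by
      have hf1 : f = 1 + σ / 2 + ρ := by rw [hρ]; ring
      have hs1 : S1 = σ - τ + r := by rw [hr]; ring
      rw [hf1]
      nlinarith [hs1]
    rw [h1]
    have h2 : -r ≤ 2 * (ε * τ) := by
      have := (abs_le.mp hS1).1; linarith
    have h3 : σ / 2 * (τ - r) ≤ N * (ε * τ) := by
      have h4 : |σ / 2 * (τ - r)| ≤ (N * ε / 2) * (2 * τ) := by
        rw [abs_mul]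
        apply mul_le_mul _ _ (abs_nonneg _) (by positivity)
        · rw [abs_div, abs_of_pos (by norm_num : (0 : ℝ) < 2)]; linarith
        · refine (abs_sub _ _).trans ?_
          rw [abs_of_nonneg hτ0]; nlinarith
      refine (le_abs_self _).trans (h4.trans (le_of_eq (by ring)))
    have h5 : -(ρ * S1) ≤ 2 * N ^ 2 * (ε * τ) := by
      have h6 : |-(ρ * S1)| ≤ (N * τ) * (N * ε + 2 * τ) := by
        rw [abs_neg, abs_mul]
        exact mul_le_mul hρb hS1b (abs_nonneg _) (by positivity)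
      refine (le_abs_self _).trans (h6.trans ?_)
      have h7 : N * ε + 2 * τ ≤ 2 * (N * ε) := by nlinarith
      calc N * τ * (N * ε + 2 * τ) ≤ N * τ * (2 * (N * ε)) :=
            mul_le_mul_of_nonneg_left h7 (by positivity)
        _ = 2 * N ^ 2 * (ε * τ) := by ring
    have h8 : (2 + N + 2 * N ^ 2) * (ε * τ) ≤ 5 * N ^ 2 * (ε * τ) := by
      apply mul_le_mul_of_nonneg_right _ hετ
      nlinarith
    linarith
  -- second product
  have hQ0 : 0 ≤ 2 * S2 + S1 ^ 2 := by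
    have : 0 ≤ (1 - 2 * ε) * τ := by
      apply mul_nonneg _ hτ0; linarith
    nlinarith [sq_nonneg S1]
  have hQl : 2 * τ + σ ^ 2 - 8 * N * (ε * τ) ≤ 2 * S2 + S1 ^ 2 := by
    have h1 : σ ^ 2 - 4 * N * (ε * τ) ≤ S1 ^ 2 := by
      have h2 : S1 ^ 2 = σ ^ 2 + (2 * σ * (r - τ) + (r - τ) ^ 2) := by rw [hr]; ring
      rw [h2]
      have h3 : |2 * σ * (r - τ)| ≤ 2 * (N * ε) * (2 * τ) := by
        rw [abs_mul, abs_mul, abs_of_pos (by norm_num : (0 : ℝ) < 2)]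
        apply mul_le_mul _ _ (abs_nonneg _) (by positivity)
        · linarith
        · refine (abs_sub _ _).trans ?_
          rw [abs_of_nonneg hτ0]; nlinarith
      have h4 := (abs_le.mp h3).1
      nlinarith [sq_nonneg (r - τ)]
    nlinarith
  have hQu : 2 * S2 + S1 ^ 2 ≤ 8 * N * τ := by
    have h1 : S1 ^ 2 ≤ 4 * (N * τ) := by
      have h2 : S1 = σ + (r - τ) := by rw [hr]; ring
      have h3 : |r - τ| ≤ 2 * τ := by
        refine (abs_sub _ _).trans ?_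
        rw [abs_of_nonneg hτ0]; nlinarith
      have h4 : (r - τ) ^ 2 ≤ τ := by
        have h5 : (r - τ) ^ 2 ≤ (2 * τ) ^ 2 := by
          rw [← sq_abs (r - τ)]
          exact pow_le_pow_left₀ (abs_nonneg _) h3 2
        have h6 : (2 * τ) ^ 2 = 4 * τ * τ := by ring
        have h7 : 4 * τ * τ ≤ 1 * τ := by
          apply mul_le_mul_of_nonneg_right _ hτ0
          linarith
        linarith
      have h8 : (σ + (r - τ)) ^ 2 ≤ 2 * σ ^ 2 + 2 * (r - τ) ^ 2 := by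
        have := sq_nonneg (σ - (r - τ))
        linarith [this, (by ring : (σ - (r - τ)) ^ 2 + (σ + (r - τ)) ^ 2 =
          2 * σ ^ 2 + 2 * (r - τ) ^ 2)]
      have h9 : τ ≤ N * τ := by
        have := mul_le_mul_of_nonneg_right hN hτ0
        linarith
      rw [h2]
      linarith
    have h9 : τ ≤ N * τ := by
      have := mul_le_mul_of_nonneg_right hN hτ0
      linarith
    linarith
  have hfl : 1 - N * ε ≤ f := by
    have h1 : f = 1 + σ / 2 + ρ := by rw [hρ]; ring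
    have h2 := (abs_le.mp hσ).1
    have h3 := (abs_le.mp hρb).1
    have h4 : N * τ ≤ N * ε / 8 := by nlinarith
    have : 0 ≤ N * ε := by positivity
    linarith
  have hP2 : 2 * τ + σ ^ 2 - 16 * N ^ 2 * (ε * τ) ≤ f * (2 * S2 + S1 ^ 2) := by
    have h1 : (1 - N * ε) * (2 * S2 + S1 ^ 2) ≤ f * (2 * S2 + S1 ^ 2) :=
      mul_le_mul_of_nonneg_right hfl hQ0
    have h2 : N * ε * (2 * S2 + S1 ^ 2) ≤ N * ε * (8 * N * τ) :=
      mul_le_mul_of_nonneg_left hQu (by positivity)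
    have h3 : 8 * N * (ε * τ) ≤ 8 * N ^ 2 * (ε * τ) := by
      apply mul_le_mul_of_nonneg_right _ hετ
      nlinarith
    nlinarith
  -- assembly
  have hA : f * (1 / 2 * (N + 1) * (-S1) - (1 - 2 * ε) / 8 * (2 * S2 + S1 ^ 2)) =
      1 / 2 * (N + 1) * (f * (-S1)) - (1 - 2 * ε) / 8 * (f * (2 * S2 + S1 ^ 2)) := by ring
  rw [hA]
  have h1 : 1 / 2 * (N + 1) * (f * (-S1)) ≤
      1 / 2 * (N + 1) * (-σ + τ - σ ^ 2 / 2 + 5 * N ^ 2 * (ε * τ)) :=
    mul_le_mul_of_nonneg_left hP1 (by positivity)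
  have h2 : (1 - 2 * ε) / 8 * (2 * τ + σ ^ 2 - 16 * N ^ 2 * (ε * τ)) ≤
      (1 - 2 * ε) / 8 * (f * (2 * S2 + S1 ^ 2)) :=
    mul_le_mul_of_nonneg_left hP2 (by apply div_nonneg _ (by norm_num); linarith)
  have h3 : 2 * τ + σ ^ 2 ≤ 3 * N * τ := by nlinarith
  have h4 : (4 * ε) / 8 * (2 * τ + σ ^ 2) ≤ 2 * N ^ 3 * (ε * τ) := by
    have h5 : (4 * ε) / 8 * (2 * τ + σ ^ 2) ≤ (4 * ε) / 8 * (3 * N * τ) :=
      mul_le_mul_of_nonneg_left h3 (by positivity)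
    have h6 : N ≤ N ^ 3 := by nlinarith [sq_nonneg N, sq_nonneg (N - 1)]
    have h7 : (4 * ε) / 8 * (3 * N * τ) = 3 / 2 * N * (ε * τ) := by ring
    have h8 : 3 / 2 * N * (ε * τ) ≤ 2 * N ^ 3 * (ε * τ) := by
      apply mul_le_mul_of_nonneg_right _ hετ
      nlinarith
    linarith
  have h5 : (1 - 2 * ε) / 8 * (16 * N ^ 2 * (ε * τ)) ≤ 2 * N ^ 3 * (ε * τ) := by
    have h6 : (1 - 2 * ε) / 8 ≤ 1 / 8 := by linarith
    have h7 : 0 ≤ 16 * N ^ 2 * (ε * τ) := by positivity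
    have h8 : N ^ 2 ≤ N ^ 3 := by nlinarith [sq_nonneg N]
    calc (1 - 2 * ε) / 8 * (16 * N ^ 2 * (ε * τ)) ≤ 1 / 8 * (16 * N ^ 2 * (ε * τ)) :=
          mul_le_mul_of_nonneg_right h6 h7
      _ = 2 * N ^ 2 * (ε * τ) := by ring
      _ ≤ 2 * N ^ 3 * (ε * τ) := by
          apply mul_le_mul_of_nonneg_right _ hετ
          linarith
  have h6 : 1 / 2 * (N + 1) * (5 * N ^ 2 * (ε * τ)) ≤ 5 * N ^ 3 * (ε * τ) := by
    have : 1 / 2 * (N + 1) * (5 * N ^ 2 * (ε * τ)) = (1 / 2 * (N + 1) * (5 * N ^ 2)) * (ε * τ) := by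
      ring
    rw [this]
    apply mul_le_mul_of_nonneg_right _ hετ
    nlinarith [sq_nonneg N]
  have h7 : 0 ≤ N ^ 3 * (ε * τ) := by positivity
  linarith

end KBR.CR
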