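import Pool.Agent.helper44.CR.Wt
import Pool.Agent.helper44.CR.Tay

/-!
# Pointwise inequalities, change of variables (cone rigidity)
-/

noncomputable section

namespace KBR.CR

open Set MeasureTheory Filter Topology
open scoped ContDiff RealInnerProductSpace

variable {n : ℕ}

theorem det_nonneg {G : E n →L[ℝ] E n} (hs : ∀ u v, ⟪G u, v⟫ = ⟪G v, u⟫)
    (hp : ∀ v, v ≠ 0 → 0 < ⟪G v, v⟫) : 0 < G.det := by
  obtain ⟨R, R', hRs, hRs', hRR, hR1, hR2⟩ := diag_sqrt G hs hp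
  have h1 : G.det = R.det * R.det := by
    rw [← hRR]
    simp only [ContinuousLinearMap.det, ContinuousLinearMap.toLinearMap_comp, LinearMap.det_comp]
  have h2 : R.det * R'.det = 1 := by
    have : (R.comp R').det = 1 := by rw [hR1]; simp [ContinuousLinearMap.det]
    rw [← this]
    simp only [ContinuousLinearMap.det, ContinuousLinearMap.toLinearMap_comp, LinearMap.det_comp]
  have h3 : R.det ≠ 0 := fun h => by rw [h, zero_mul] at h2; exact zero_ne_one h2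
  rw [h1]
  exact mul_self_pos.mpr h3

theorem tr2_nonneg (G H : E n →L[ℝ] E n) (hs : ∀ u v, ⟪G u, v⟫ = ⟪G v, u⟫)
    (hp : ∀ v, v ≠ 0 → 0 < ⟪G v, v⟫) (hH : ∀ u v, ⟪H u, v⟫ = ⟪H v, u⟫) :
    0 ≤ tr2 G H ∧ (tr2 G H = 0 → H = 0) := by
  obtain ⟨f, e, hG1, hG2, hHf, hGf⟩ := releig G H hs hp hH
  have h2 : tr2 G H = ∑ i, e i ^ 2 := by
    refine trace_of_basis f _ _ fun i => ?_
    show G.inverse (H (G.inverse (H (f i)))) = _
    have hiH : ∀ i, G.inverse (H (f i)) = e i • f i := by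
      intro i; rw [hHf i, map_smul, hG1]
    rw [hiH, map_smul, map_smul, hiH, smul_smul, sq]
  refine ⟨by rw [h2]; exact Finset.sum_nonneg fun i _ => sq_nonneg _, fun h0 => ?_⟩
  rw [h2, Finset.sum_eq_zero_iff_of_nonneg fun i _ => sq_nonneg _] at h0
  have h3 : ∀ i, H (f i) = 0 := fun i => by
    have h4 := h0 i (Finset.mem_univ _)
    have h5 : e i = 0 := by simpa using h4
    rw [hHf i, h5, zero_smul]
  have h4 : (H : E n →ₗ[ℝ] E n) = 0 := f.ext fun i => by simpa using h3 i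
  ext1 v
  exact congrArg (fun T : E n →ₗ[ℝ] E n => T v) h4

theorem point_A (G H : E n →L[ℝ] E n) (hs : ∀ u v, ⟪G u, v⟫ = ⟪G v, u⟫)
    (hp : ∀ v, v ≠ 0 → 0 < ⟪G v, v⟫) (hH : ∀ u v, ⟪H u, v⟫ = ⟪H v, u⟫) {ε : ℝ} (hε : 0 < ε)
    (hNε : (n + 1) * ε ≤ 1 / 8) (hHε : ∀ v, |⟪H v, v⟫| ≤ ε * ⟪G v, v⟫) :
    Real.sqrt G.det * (1 / 2 * (n + 2) * tr1 G H - (1 - 2 * ε) / 8 *
      (2 * tr2 G H + tr1 G H ^ 2)) - (n + 2) * (Real.sqrt (G + H).det - Real.sqrt G.det) ≤
      Real.sqrt G.det * (((n + 1) / 4 + 10 * (n + 1) ^ 3 * ε) * tr2 G H -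
        (n + 3) / 8 * tr1 G H ^ 2) := by
  have hn0 : (0 : ℝ) ≤ n := Nat.cast_nonneg n
  have hε1 : ε < 1 := by nlinarith
  obtain ⟨e, he, h1, h2, h3, -, -⟩ := invariants G H hs hp hH ε hε1 hHε
  obtain ⟨b1, b2, b3, b4⟩ := basics e hε he
  have hf := f_bound e hε hNε he
  have hA := alg_A (N := (n : ℝ) + 1) (σ := ∑ i, e i) (τ := ∑ i, e i ^ 2) (ε := ε)
    (f := Real.sqrt (∏ i, (1 + e i))) (by linarith) hε b2 b4 hf
  rw [h1, h2, h3, Real.sqrt_mul (det_nonneg hs hp).le]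
  have h5 := mul_le_mul_of_nonneg_left hA (Real.sqrt_nonneg G.det)
  refine le_trans (le_of_eq ?_) (h5.trans (le_of_eq ?_)) <;> ring

theorem point_B (G H : E n →L[ℝ] E n) (hs : ∀ u v, ⟪G u, v⟫ = ⟪G v, u⟫)
    (hp : ∀ v, v ≠ 0 → 0 < ⟪G v, v⟫) (hH : ∀ u v, ⟪H u, v⟫ = ⟪H v, u⟫) {ε : ℝ} (hε : 0 < ε)
    (hNε : (n + 1) * ε ≤ 1 / 8) (hHε : ∀ v, |⟪H v, v⟫| ≤ ε * ⟪G v, v⟫) :
    Real.sqrt G.det * (1 / 2 * (n + 2) * tr1 G H - (1 - 2 * ε) / 8 *
      (2 * tr2 G H + tr1 G H ^ 2)) +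
    Real.sqrt (G + H).det * (1 / 2 * (n + 2) * tr1 (G + H) (-H) - (1 - 2 * ε) / 8 *
      (2 * tr2 (G + H) (-H) + tr1 (G + H) (-H) ^ 2)) ≤
      Real.sqrt G.det * (((n + 1) / 2 + 20 * (n + 1) ^ 3 * ε) * tr2 G H -
        (n + 3) / 4 * tr1 G H ^ 2) := by
  have hn0 : (0 : ℝ) ≤ n := Nat.cast_nonneg n
  have hε1 : ε < 1 := by nlinarith
  have hε8 : ε ≤ 1 / 8 := by nlinarith
  obtain ⟨e, he, h1, h2, h3, h4, h5⟩ := invariants G H hs hp hH ε hε1 hHε
  obtain ⟨b1, b2, b3, b4⟩ := basics e hε he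
  obtain ⟨s1, s2, s3⟩ := S_bound e hε hε8 he
  have hf := f_bound e hε hNε he
  have hB := alg_B (N := (n : ℝ) + 1) (σ := ∑ i, e i) (τ := ∑ i, e i ^ 2) (ε := ε)
    (f := Real.sqrt (∏ i, (1 + e i))) (by linarith) hε hNε b1 b2 b3 b4 s1 s2 s3 hf
  rw [h1, h2, h3, h4, h5, Real.sqrt_mul (det_nonneg hs hp).le]
  have h6 := mul_le_mul_of_nonneg_left hB (Real.sqrt_nonneg G.det)
  refine le_trans (le_of_eq ?_) (h6.trans (le_of_eq ?_)) <;> ring

/-! ### change of variables -/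

variable {ψ χ : E n → E n}

theorem deriv_inv (hψ : ContDiff ℝ ∞ ψ) (hχ : ContDiff ℝ ∞ χ) (h : ∀ x ∈ M n, χ (ψ x) = x) :
    ∀ x ∈ M n, ∀ v, fderiv ℝ χ (ψ x) (fderiv ℝ ψ x v) = v := by
  intro x hx v
  have hcl : x ∈ closure (Metric.ball (0 : E n) 1) := by
    rw [closure_ball (0 : E n) one_ne_zero]; exact hx
  have hc1 : Continuous fun y => fderiv ℝ χ (ψ y) :=
    (hχ.continuous_fderiv (by simp)).comp hψ.continuous
  have hc2 : Continuous fun y => fderiv ℝ ψ y := hψ.continuous_fderiv (by simp)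
  have hc : Continuous fun y => fderiv ℝ χ (ψ y) (fderiv ℝ ψ y v) :=
    hc1.clm_apply (hc2.clm_apply continuous_const)
  have hclosed : IsClosed {y | fderiv ℝ χ (ψ y) (fderiv ℝ ψ y v) = v} :=
    isClosed_eq hc continuous_const
  refine closure_minimal (fun y hy => ?_) hclosed hcl
  have hev : (fun z => χ (ψ z)) =ᶠ[𝓝 y] fun z => z := by
    filter_upwards [Metric.isOpen_ball.mem_nhds hy] with z hz
    exact h z (ball_subset_M hz)
  have h1 : HasFDerivAt (fun z => χ (ψ z)) ((fderiv ℝ χ (ψ y)).comp (fderiv ℝ ψ y)) y :=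
    ((hχ.differentiable (by simp)).differentiableAt.hasFDerivAt).comp y
      ((hψ.differentiable (by simp)).differentiableAt.hasFDerivAt)
  have h2 : HasFDerivAt (fun z : E n => z) (ContinuousLinearMap.id ℝ (E n)) y := hasFDerivAt_id y
  have h3 := (h2.congr_of_eventuallyEq hev).unique h1
  show fderiv ℝ χ (ψ y) (fderiv ℝ ψ y v) = v
  have h4 := congrArg (fun T : E n →L[ℝ] E n => T v) h3
  simpa using h4.symm

theorem chg (hψ : ContDiff ℝ ∞ ψ) (hψM : MapsTo ψ (M n) (M n)) (hχM : MapsTo χ (M n) (M n))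
    (h1 : ∀ x ∈ M n, χ (ψ x) = x) (h2 : ∀ x ∈ M n, ψ (χ x) = x) (F : E n → ℝ) :
    ∫ y in M n, F y = ∫ x in M n, |(fderiv ℝ ψ x).det| * F (ψ x) := by
  have himg : ψ '' M n = M n := by
    apply Subset.antisymm
    · rintro _ ⟨x, hx, rfl⟩; exact hψM hx
    · intro y hy; exact ⟨χ y, hχM hy, h2 y hy⟩
  have hinj : InjOn ψ (M n) := fun x hx y hy h => by rw [← h1 x hx, ← h1 y hy, h]
  have hMm : MeasurableSet (M n) := Metric.isClosed_closedBall.measurableSet
  have h := integral_image_eq_integral_abs_det_fderiv_smul volume hMm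
    (fun x _ => ((hψ.differentiable (by simp)).differentiableAt (x := x)).hasFDerivAt.hasFDerivWithinAt)
    hinj F
  rw [himg] at h
  rw [h]
  simp only [smul_eq_mul]

theorem det_adj (P : E n →L[ℝ] E n) : (ContinuousLinearMap.adjoint P).det = P.det := by
  have h1 : (ContinuousLinearMap.adjoint P).det = LinearMap.det (LinearMap.adjoint (P : E n →ₗ[ℝ] E n)) := by
    rfl
  rw [h1]
  have h2 := LinearMap.det_toMatrix (EuclideanSpace.basisFun (Fin n) ℝ).toBasis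
    (LinearMap.adjoint (P : E n →ₗ[ℝ] E n))
  rw [← h2, LinearMap.toMatrix_adjoint, Matrix.det_conjTranspose, LinearMap.det_toMatrix]
  rfl

theorem sqrt_det_pb (ψ : E n → E n) (G : E n → E n →L[ℝ] E n) (x : E n) :
    Real.sqrt (pb ψ G x).det = |(fderiv ℝ ψ x).det| * Real.sqrt (G (ψ x)).det := by
  have h1 : (pb ψ G x).det = (fderiv ℝ ψ x).det ^ 2 * (G (ψ x)).det := by
    unfold pb
    have : ((ContinuousLinearMap.adjoint (fderiv ℝ ψ x)).comp
        ((G (ψ x)).comp (fderiv ℝ ψ x))).det = (ContinuousLinearMap.adjoint (fderiv ℝ ψ x)).det *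
          ((G (ψ x)).det * (fderiv ℝ ψ x).det) := by
      simp only [ContinuousLinearMap.det, ContinuousLinearMap.toLinearMap_comp, LinearMap.det_comp]
    rw [this, det_adj]; ring
  rw [h1, Real.sqrt_mul (sq_nonneg _), Real.sqrt_sq_eq_abs]

/-- invariance of the traces -/
theorem tr_conj (P Q G K : E n →L[ℝ] E n) (hPQ : ∀ v, P (Q v) = v) (hQP : ∀ v, Q (P v) = v)
    (hG : G.IsInvertible) :
    tr1 ((ContinuousLinearMap.adjoint P).comp (G.comp P))
      ((ContinuousLinearMap.adjoint P).comp (K.comp P)) = tr1 G K ∧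
    tr2 ((ContinuousLinearMap.adjoint P).comp (G.comp P))
      ((ContinuousLinearMap.adjoint P).comp (K.comp P)) = tr2 G K := by
  set A := ContinuousLinearMap.adjoint P with hA
  set A' := ContinuousLinearMap.adjoint Q with hA'
  have hAA' : ∀ v, A (A' v) = v := fun v => by
    apply ext_inner_right ℝ
    intro w
    rw [hA, hA', ContinuousLinearMap.adjoint_inner_left, ContinuousLinearMap.adjoint_inner_left, hQP]
  have hA'A : ∀ v, A' (A v) = v := fun v => by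
    apply ext_inner_right ℝ
    intro w
    rw [hA, hA', ContinuousLinearMap.adjoint_inner_left, ContinuousLinearMap.adjoint_inner_left, hPQ]
  have hinv : (A.comp (G.comp P)).inverse = Q.comp (G.inverse.comp A') := by
    refine ContinuousLinearMap.inverse_eq ?_ ?_
    · ext1 v
      show A (G (P (Q (G.inverse (A' v))))) = v
      rw [hPQ, hG.self_apply_inverse, hAA']
    · ext1 v
      show Q (G.inverse (A' (A (G (P v))))) = v
      rw [hA'A, hG.inverse_apply_self, hQP]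
  have hX : (A.comp (G.comp P)).inverse.comp (A.comp (K.comp P)) =
      Q.comp ((G.inverse.comp K).comp P) := by
    rw [hinv]
    ext1 v
    show Q (G.inverse (A' (A (K (P v))))) = Q (G.inverse (K (P v)))
    rw [hA'A]
  have htr : ∀ X : E n →L[ℝ] E n, LinearMap.trace ℝ (E n)
      ((Q.comp (X.comp P) : E n →L[ℝ] E n) : E n →ₗ[ℝ] E n) =
      LinearMap.trace ℝ (E n) (X : E n →ₗ[ℝ] E n) := by
    intro X
    have h1 : ((Q.comp (X.comp P) : E n →L[ℝ] E n) : E n →ₗ[ℝ] E n) =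
        (Q : E n →ₗ[ℝ] E n) ∘ₗ ((X : E n →ₗ[ℝ] E n) ∘ₗ (P : E n →ₗ[ℝ] E n)) := rfl
    rw [h1, LinearMap.trace_comp_comm']
    congr 1
    apply LinearMap.ext
    intro v
    show X (P (Q v)) = X v
    rw [hPQ]
  constructor
  · unfold tr1
    rw [hX, htr]
  · unfold tr2
    rw [hX]
    have : (Q.comp ((G.inverse.comp K).comp P)).comp (Q.comp ((G.inverse.comp K).comp P)) =
        Q.comp (((G.inverse.comp K).comp (G.inverse.comp K)).comp P) := by
      ext1 v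
      show Q (G.inverse (K (P (Q (G.inverse (K (P v))))))) = Q (G.inverse (K (G.inverse (K (P v)))))
      rw [hPQ]
    rw [this, htr]

end KBR.CR
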