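import Pool.Agent.helper25.KBR2.Moment

/-!
# Relative eigenvalues of two quadratic forms (cone rigidity)
-/

noncomputable section

namespace KBR.CR

open Set MeasureTheory
open scoped ContDiff RealInnerProductSpace

variable {n : ℕ}

theorem trace_of_basis (f : Module.Basis (Fin n) ℝ (E n)) (T : E n →ₗ[ℝ] E n) (t : Fin n → ℝ)
    (h : ∀ i, T (f i) = t i • f i) : LinearMap.trace ℝ (E n) T = ∑ i, t i := by
  have h1 : LinearMap.toMatrix f f T = Matrix.diagonal t := by
    ext i j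
    rw [LinearMap.toMatrix_apply, h j]
    simp only [map_smul, Module.Basis.repr_self, Finsupp.smul_apply, smul_eq_mul]
    by_cases hij : i = j
    · subst hij; simp
    · rw [Matrix.diagonal_apply_ne _ hij, Finsupp.single_eq_of_ne hij, mul_zero]
  rw [LinearMap.trace_eq_matrix_trace ℝ f, h1, Matrix.trace_diagonal]

theorem det_of_basis (f : Module.Basis (Fin n) ℝ (E n)) (T : E n →ₗ[ℝ] E n) (t : Fin n → ℝ)
    (h : ∀ i, T (f i) = t i • f i) : LinearMap.det T = ∏ i, t i := by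
  have h1 : LinearMap.toMatrix f f T = Matrix.diagonal t := by
    ext i j
    rw [LinearMap.toMatrix_apply, h j]
    simp only [map_smul, Module.Basis.repr_self, Finsupp.smul_apply, smul_eq_mul]
    by_cases hij : i = j
    · subst hij; simp
    · rw [Matrix.diagonal_apply_ne _ hij, Finsupp.single_eq_of_ne hij, mul_zero]
  rw [← LinearMap.det_toMatrix f, h1, Matrix.det_diagonal]

/-- simultaneous diagonalisation -/
theorem releig (G H : E n →L[ℝ] E n) (hs : ∀ u v, ⟪G u, v⟫ = ⟪G v, u⟫)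
    (hp : ∀ v, v ≠ 0 → 0 < ⟪G v, v⟫) (hH : ∀ u v, ⟪H u, v⟫ = ⟪H v, u⟫) :
    ∃ (f : Module.Basis (Fin n) ℝ (E n)) (e : Fin n → ℝ), (∀ v, G.inverse (G v) = v) ∧
      (∀ v, G (G.inverse v) = v) ∧ (∀ i, H (f i) = e i • G (f i)) ∧ (∀ i, ⟪G (f i), f i⟫ = 1) := by
  obtain ⟨R, R', hRs, hRs', hRR, hR1, hR2⟩ := diag_sqrt G hs hp
  have a1 : ∀ x, R (R' x) = x := fun x => by
    have := congrArg (fun T : E n →L[ℝ] E n => T x) hR1; simpa using this
  have a2 : ∀ x, R' (R x) = x := fun x => by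
    have := congrArg (fun T : E n →L[ℝ] E n => T x) hR2; simpa using this
  have hGx : ∀ x, G x = R (R x) := fun x => by rw [← hRR]; rfl
  have hGi : G.inverse = R'.comp R' := by
    refine ContinuousLinearMap.inverse_eq ?_ ?_
    · ext1 x; rw [← hRR]; simp [a1]
    · ext1 x; rw [← hRR]; simp [a2]
  set S : E n →L[ℝ] E n := R'.comp (H.comp R') with hS
  have hSs : (S : E n →ₗ[ℝ] E n).IsSymmetric := by
    intro u v
    show ⟪R' (H (R' u)), v⟫ = ⟪u, R' (H (R' v))⟫
    have e1 : ⟪R' (H (R' u)), v⟫ = ⟪H (R' u), R' v⟫ := by rw [hRs', real_inner_comm]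
    have e2 : ⟪u, R' (H (R' v))⟫ = ⟪H (R' v), R' u⟫ := by
      rw [real_inner_comm, hRs', real_inner_comm]
    rw [e1, e2, hH]
  have hn : Module.finrank ℝ (E n) = n := by simp
  set b := hSs.eigenvectorBasis hn with hb
  set lam := hSs.eigenvalues hn with hlam
  have hSb : ∀ i, S (b i) = lam i • b i := fun i => hSs.apply_eigenvectorBasis hn i
  let eR : E n ≃ₗ[ℝ] E n := LinearEquiv.ofBijective (R' : E n →ₗ[ℝ] E n)
    ⟨fun x y h => by
      have h' : R' x = R' y := h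
      rw [← a1 x, ← a1 y, h'], fun y => ⟨R y, a2 y⟩⟩
  refine ⟨b.toBasis.map eR, lam, ?_, ?_, ?_, ?_⟩
  · intro v; rw [hGi, hGx]; simp [a2]
  · intro v; rw [hGi, hGx]; simp [a1]
  · intro i
    have h1 : (b.toBasis.map eR) i = R' (b i) := by
      rw [Module.Basis.map_apply, OrthonormalBasis.coe_toBasis]; rfl
    rw [h1, hGx, a1]
    have h2 := congrArg R (hSb i)
    rw [hS] at h2
    simp only [ContinuousLinearMap.comp_apply, a1, map_smul] at h2
    exact h2
  · intro i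
    have h1 : (b.toBasis.map eR) i = R' (b i) := by
      rw [Module.Basis.map_apply, OrthonormalBasis.coe_toBasis]; rfl
    rw [h1, hGx, a1, hRs, a1, real_inner_self_eq_norm_sq, b.norm_eq_one]
    norm_num

/-- `tr (G⁻¹ H)` -/
def tr1 (G H : E n →L[ℝ] E n) : ℝ :=
  LinearMap.trace ℝ (E n) ((G.inverse.comp H : E n →L[ℝ] E n) : E n →ₗ[ℝ] E n)

/-- `tr ((G⁻¹ H)²)` -/
def tr2 (G H : E n →L[ℝ] E n) : ℝ :=
  LinearMap.trace ℝ (E n)
    (((G.inverse.comp H).comp (G.inverse.comp H) : E n →L[ℝ] E n) : E n →ₗ[ℝ] E n)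

/-- all the invariants of the pair `(G, G + H)` in terms of the relative eigenvalues -/
theorem invariants (G H : E n →L[ℝ] E n) (hs : ∀ u v, ⟪G u, v⟫ = ⟪G v, u⟫)
    (hp : ∀ v, v ≠ 0 → 0 < ⟪G v, v⟫) (hH : ∀ u v, ⟪H u, v⟫ = ⟪H v, u⟫) (ε : ℝ) (hε : ε < 1)
    (hHε : ∀ v, |⟪H v, v⟫| ≤ ε * ⟪G v, v⟫) :
    ∃ e : Fin n → ℝ, (∀ i, |e i| ≤ ε) ∧ tr1 G H = ∑ i, e i ∧ tr2 G H = ∑ i, e i ^ 2 ∧
      (G + H).det = G.det * ∏ i, (1 + e i) ∧
      tr1 (G + H) (-H) = - ∑ i, e i / (1 + e i) ∧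
      tr2 (G + H) (-H) = ∑ i, (e i / (1 + e i)) ^ 2 := by
  obtain ⟨f, e, hG1, hG2, hHf, hGf⟩ := releig G H hs hp hH
  have he : ∀ i, |e i| ≤ ε := by
    intro i
    have h1 := hHε (f i)
    rw [hHf i, inner_smul_left, hGf i] at h1
    simpa using h1
  have h1e : ∀ i, 0 < 1 + e i := fun i => by
    have := (abs_le.mp (he i)).1
    linarith
  have hGH : ∀ i, (G + H) (f i) = (1 + e i) • G (f i) := by
    intro i
    rw [_root_.add_apply, hHf i, add_smul, one_smul]
  have hiH : ∀ i, G.inverse (H (f i)) = e i • f i := by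
    intro i; rw [hHf i, map_smul, hG1]
  -- `G + H` is invertible
  have hp' : ∀ v, v ≠ 0 → 0 < ⟪(G + H) v, v⟫ := by
    intro v hv
    rw [_root_.add_apply, inner_add_left]
    have h2 := (abs_le.mp (hHε v)).1
    have h3 := hp v hv
    nlinarith
  have hs' : ∀ u v, ⟪(G + H) u, v⟫ = ⟪(G + H) v, u⟫ := by
    intro u v
    rw [_root_.add_apply, _root_.add_apply, inner_add_left, inner_add_left, hs, hH]
  obtain ⟨f', e', hI1, hI2, -, -⟩ := releig (G + H) H hs' hp' hH
  have hiGH : ∀ i, (G + H).inverse (H (f i)) = (e i / (1 + e i)) • f i := by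
    intro i
    have h2 : H (f i) = (e i / (1 + e i)) • (G + H) (f i) := by
      rw [hGH, smul_smul, div_mul_cancel₀ _ (h1e i).ne', hHf]
    rw [h2, map_smul, hI1]
  refine ⟨e, he, ?_, ?_, ?_, ?_, ?_⟩
  · exact trace_of_basis f _ _ fun i => hiH i
  · refine trace_of_basis f _ _ fun i => ?_
    show G.inverse (H (G.inverse (H (f i)))) = _
    rw [hiH, map_smul, map_smul, hiH, smul_smul, sq]
  · have h2 : ((G + H : E n →L[ℝ] E n) : E n →ₗ[ℝ] E n) =
        (G : E n →ₗ[ℝ] E n) ∘ₗ (LinearMap.id + ((G.inverse.comp H : E n →L[ℝ] E n) :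
          E n →ₗ[ℝ] E n)) := by
      apply LinearMap.ext
      intro v
      show (G + H) v = G (v + G.inverse (H v))
      rw [map_add, hG2, _root_.add_apply]
    have h3 : (G + H).det = LinearMap.det ((G + H : E n →L[ℝ] E n) : E n →ₗ[ℝ] E n) := rfl
    rw [h3, h2, LinearMap.det_comp]
    congr 1
    refine det_of_basis f _ _ fun i => ?_
    show f i + G.inverse (H (f i)) = _
    rw [hiH, add_smul, one_smul]
  · rw [← Finset.sum_neg_distrib]
    refine trace_of_basis f _ _ fun i => ?_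
    show (G + H).inverse ((-H) (f i)) = _
    rw [_root_.neg_apply, map_neg, hiGH, neg_smul]
  · refine trace_of_basis f _ _ fun i => ?_
    show (G + H).inverse ((-H) ((G + H).inverse ((-H) (f i)))) = _
    rw [_root_.neg_apply, _root_.neg_apply, map_neg, map_neg, map_neg, map_neg, hiGH, map_smul, map_smul,
      hiGH, smul_smul, sq, neg_neg]

end KBR.CR
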