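import Pool.Agent.helper44.CR.Chg
import Pool.Agent.helper21.KBR.Stmt

/-!
# Cone rigidity: the main theorems
-/

noncomputable section

namespace KBR.CR

open Set MeasureTheory Filter Topology
open scoped ContDiff RealInnerProductSpace

variable {n : ℕ}

/-- everything we know about the pair `(G, B)`, `B = ψ^* G₂` -/
structure Pair (n : ℕ) (G B : E n → E n →L[ℝ] E n) (ε : ℝ) : Prop where
  hG : IsMetric G
  hBc : Continuous B
  hBs : ∀ x ∈ M n, ∀ u v, ⟪B x u, v⟫ = ⟪B x v, u⟫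
  hε : 0 < ε
  hNε : (n + 1) * ε ≤ 1 / 8
  hH : ∀ x ∈ M n, ∀ v, |⟪(B x - G x) v, v⟫| ≤ ε * ⟪G x v, v⟫

namespace Pair

variable {G B : E n → E n →L[ℝ] E n} {ε : ℝ}

theorem hHs (P : Pair n G B ε) {x : E n} (hx : x ∈ M n) (u v : E n) :
    ⟪(B x - G x) u, v⟫ = ⟪(B x - G x) v, u⟫ := by
  rw [_root_.sub_apply, _root_.sub_apply, inner_sub_left, inner_sub_left, P.hBs x hx,
    P.hG.symm x hx]

theorem eps1 (P : Pair n G B ε) : ε ≤ 1 / 8 := by
  have := P.hNε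
  have := P.hε
  have hn0 : (0 : ℝ) ≤ n := Nat.cast_nonneg n
  nlinarith

theorem hBpos (P : Pair n G B ε) {x : E n} (hx : x ∈ M n) (v : E n) (hv : v ≠ 0) :
    0 < ⟪B x v, v⟫ := by
  have h1 := (abs_le.mp (P.hH x hx v)).1
  rw [_root_.sub_apply, inner_sub_left] at h1
  have h2 := P.hG.pos x hx v hv
  have h3 := P.eps1
  nlinarith

theorem contOn_inv {A : E n → E n →L[ℝ] E n} (hA : Continuous A)
    (hp : ∀ x ∈ M n, (A x).IsInvertible) : ContinuousOn (fun x => (A x).inverse) (M n) := by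
  intro x hx
  obtain ⟨e, he⟩ := hp x hx
  have h1 : ContinuousAt ContinuousLinearMap.inverse (A x) := by
    rw [← he]
    exact (contDiffAt_map_inverse (𝕜 := ℝ) (n := 0) e).continuousAt
  exact (h1.comp (f := A) hA.continuousAt).continuousWithinAt

theorem contOn_tr1 {A D : E n → E n →L[ℝ] E n} (hA : Continuous A) (hD : Continuous D)
    (hp : ∀ x ∈ M n, (A x).IsInvertible) : ContinuousOn (fun x => tr1 (A x) (D x)) (M n) :=
  trace_continuous.comp_continuousOn ((contOn_inv hA hp).clm_comp hD.continuousOn)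

theorem contOn_tr2 {A D : E n → E n →L[ℝ] E n} (hA : Continuous A) (hD : Continuous D)
    (hp : ∀ x ∈ M n, (A x).IsInvertible) : ContinuousOn (fun x => tr2 (A x) (D x)) (M n) := by
  have h1 := (contOn_inv hA hp).clm_comp hD.continuousOn
  exact trace_continuous.comp_continuousOn (h1.clm_comp h1)

end Pair

theorem intOn {f : E n → ℝ} (hf : ContinuousOn f (M n)) : IntegrableOn f (M n) :=
  hf.integrableOn_compact (isCompact_closedBall _ _)

/-- end of the argument: a small multiple of the trace-free part gives everything -/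
theorem finish {G B : E n → E n →L[ℝ] E n} {ε : ℝ} (P : Pair n G B ε) {K L c : ℝ} (hK : 0 ≤ K)
    (hL : 0 < L) (hKc : K * c < L)
    (hI : 0 ≤ ∫ x in M n, Real.sqrt (G x).det * (K * tr2 (G x) (B x - G x) -
      L * tr1 (G x) (B x - G x) ^ 2))
    (hcone : ∫ x in M n, Real.sqrt (G x).det * tr2 (G x) (B x - G x) ≤
      c * ∫ x in M n, Real.sqrt (G x).det * tr1 (G x) (B x - G x) ^ 2) :
    ∀ x ∈ M n, B x = G x := by
  have hinv : ∀ x ∈ M n, (G x).IsInvertible := fun x hx => P.hG.inv hx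
  have hsc := (sqrt_det_contOn P.hG.smooth.continuous).continuousOn (s := M n)
  have hDc : Continuous fun x => B x - G x := P.hBc.sub P.hG.smooth.continuous
  have c1 := Pair.contOn_tr1 P.hG.smooth.continuous hDc hinv
  have c2 := Pair.contOn_tr2 P.hG.smooth.continuous hDc hinv
  set a : E n → ℝ := fun x => Real.sqrt (G x).det * tr2 (G x) (B x - G x) with ha
  set b : E n → ℝ := fun x => Real.sqrt (G x).det * tr1 (G x) (B x - G x) ^ 2 with hb
  have ia : IntegrableOn a (M n) := intOn (hsc.mul c2)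
  have ib : IntegrableOn b (M n) := intOn (hsc.mul (c1.pow 2))
  have h1 : ∫ x in M n, Real.sqrt (G x).det * (K * tr2 (G x) (B x - G x) -
      L * tr1 (G x) (B x - G x) ^ 2) = K * (∫ x in M n, a x) - L * ∫ x in M n, b x := by
    rw [← integral_const_mul, ← integral_const_mul, ← integral_sub (ia.const_mul K) (ib.const_mul L)]
    congr 1
    funext x
    simp only [ha, hb]; ring
  rw [h1] at hI
  have hbnn : 0 ≤ ∫ x in M n, b x :=
    setIntegral_nonneg Metric.isClosed_closedBall.measurableSet fun x _ =>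
      mul_nonneg (Real.sqrt_nonneg _) (sq_nonneg _)
  have h2 : (K * c - L) * ∫ x in M n, b x ≥ 0 := by
    have := mul_le_mul_of_nonneg_left hcone hK
    linarith
  have h3 : ∫ x in M n, b x = 0 := by
    apply le_antisymm _ hbnn
    by_contra h
    push Not at h
    nlinarith
  have h4 : ∫ x in M n, a x ≤ 0 := by
    have : ∫ x in M n, a x ≤ c * ∫ x in M n, b x := hcone
    rw [h3, mul_zero] at this
    exact this
  have hann : ∀ x ∈ M n, 0 ≤ a x := fun x hx =>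
    mul_nonneg (Real.sqrt_nonneg _)
      (tr2_nonneg _ _ (P.hG.symm x hx) (P.hG.pos x hx) (P.hHs hx)).1
  have hMm : MeasurableSet (M n) := Metric.isClosed_closedBall.measurableSet
  have h5 : ∫ x in M n, a x = 0 := le_antisymm h4 (setIntegral_nonneg hMm hann)
  have hae : a =ᵐ[volume.restrict (M n)] 0 := by
    rw [setIntegral_eq_zero_iff_of_nonneg_ae] at h5
    · exact h5
    · exact (ae_restrict_iff' hMm).mpr (Eventually.of_forall hann)
    · exact ia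
  have haeU : a =ᵐ[volume.restrict (Metric.ball (0 : E n) 1)] 0 :=
    ae_restrict_of_ae_restrict_of_subset ball_subset_M hae
  have hEq : EqOn a 0 (Metric.ball (0 : E n) 1) :=
    Measure.eqOn_open_of_ae_eq haeU Metric.isOpen_ball
      ((hsc.mul c2).mono ball_subset_M) continuousOn_const
  have hball : ∀ x ∈ Metric.ball (0 : E n) 1, B x = G x := by
    intro x hx
    have hxM := ball_subset_M hx
    have h6 : a x = 0 := hEq hx
    have h7 : Real.sqrt (G x).det ≠ 0 :=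
      (Real.sqrt_pos.mpr (det_nonneg (P.hG.symm x hxM) (P.hG.pos x hxM))).ne'
    have h8 : tr2 (G x) (B x - G x) = 0 := by
      rcases mul_eq_zero.mp h6 with h | h
      · exact absurd h h7
      · exact h
    exact sub_eq_zero.mp
      ((tr2_nonneg _ _ (P.hG.symm x hxM) (P.hG.pos x hxM) (P.hHs hxM)).2 h8)
  intro x hx
  have hcl : x ∈ closure (Metric.ball (0 : E n) 1) := by
    rw [closure_ball (0 : E n) one_ne_zero]; exact hx
  exact closure_minimal (fun y hy => hball y hy)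
    (isClosed_eq P.hBc P.hG.smooth.continuous) hcl

variable {G₁ G₂ : E n → E n →L[ℝ] E n} {ψ χ : E n → E n}

/-- the data of a boundary fixing diffeomorphism -/
structure Dif (n : ℕ) (ψ χ : E n → E n) : Prop where
  hψ : ContDiff ℝ ∞ ψ
  hχ : ContDiff ℝ ∞ χ
  hψM : MapsTo ψ (M n) (M n)
  hχM : MapsTo χ (M n) (M n)
  hψb : ∀ x ∈ bM n, ψ x = x
  hχb : ∀ x ∈ bM n, χ x = x
  h1 : ∀ x ∈ M n, χ (ψ x) = x
  h2 : ∀ x ∈ M n, ψ (χ x) = x

theorem Dif.qp (D : Dif n ψ χ) {x : E n} (hx : x ∈ M n) (v : E n) :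
    fderiv ℝ χ (ψ x) (fderiv ℝ ψ x v) = v := deriv_inv D.hψ D.hχ D.h1 x hx v

theorem Dif.pq (D : Dif n ψ χ) {x : E n} (hx : x ∈ M n) (v : E n) :
    fderiv ℝ ψ x (fderiv ℝ χ (ψ x) v) = v := by
  have := deriv_inv D.hχ D.hψ D.h2 (ψ x) (D.hψM hx) v
  rwa [D.h1 x hx] at this

theorem vol_pb (D : Dif n ψ χ) (G : E n → E n →L[ℝ] E n) : vol (pb ψ G) = vol G := by
  unfold vol
  rw [chg D.hψ D.hψM D.hχM D.h1 D.h2 fun y => Real.sqrt (G y).det]
  congr 1
  funext x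
  rw [sqrt_det_pb]

/-- `G₁` pulled back by `χ`, seen at the point `ψ x` -/
theorem pull_diff (D : Dif n ψ χ) {x : E n} (hx : x ∈ M n) :
    (ContinuousLinearMap.adjoint (fderiv ℝ ψ x)).comp
      ((pb χ G₁ (ψ x) - G₂ (ψ x)).comp (fderiv ℝ ψ x)) = G₁ x - pb ψ G₂ x := by
  ext1 v
  apply ext_inner_right ℝ
  intro w
  rw [ContinuousLinearMap.comp_apply, ContinuousLinearMap.comp_apply,
    ContinuousLinearMap.adjoint_inner_left, _root_.sub_apply, _root_.sub_apply, inner_sub_left,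
    inner_sub_left, pb_inner, pb_inner, D.h1 x hx, D.qp hx, D.qp hx]

theorem second_int (D : Dif n ψ χ) (hG₂ : IsMetric G₂) (F : ℝ → ℝ → ℝ) :
    ∫ y in M n, Real.sqrt (G₂ y).det * F (tr1 (G₂ y) (pb χ G₁ y - G₂ y))
      (tr2 (G₂ y) (pb χ G₁ y - G₂ y)) =
    ∫ x in M n, Real.sqrt (pb ψ G₂ x).det * F (tr1 (pb ψ G₂ x) (G₁ x - pb ψ G₂ x))
      (tr2 (pb ψ G₂ x) (G₁ x - pb ψ G₂ x)) := by
  rw [chg D.hψ D.hψM D.hχM D.h1 D.h2 fun y => Real.sqrt (G₂ y).det *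
    F (tr1 (G₂ y) (pb χ G₁ y - G₂ y)) (tr2 (G₂ y) (pb χ G₁ y - G₂ y))]
  apply setIntegral_congr_fun Metric.isClosed_closedBall.measurableSet
  intro x hx
  have hinv := hG₂.inv (D.hψM hx)
  obtain ⟨t1, t2⟩ := tr_conj (fderiv ℝ ψ x) (fderiv ℝ χ (ψ x)) (G₂ (ψ x))
    (pb χ G₁ (ψ x) - G₂ (ψ x)) (D.pq hx) (D.qp hx) hinv
  rw [pull_diff D hx] at t1 t2
  show |(fderiv ℝ ψ x).det| * (Real.sqrt (G₂ (ψ x)).det *
    F (tr1 (G₂ (ψ x)) (pb χ G₁ (ψ x) - G₂ (ψ x))) (tr2 (G₂ (ψ x)) (pb χ G₁ (ψ x) - G₂ (ψ x)))) = _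
  rw [← t1, ← t2]
  show _ = Real.sqrt (pb ψ G₂ x).det * F (tr1 (pb ψ G₂ x) (G₁ x - pb ψ G₂ x))
    (tr2 (pb ψ G₂ x) (G₁ x - pb ψ G₂ x))
  rw [sqrt_det_pb, mul_assoc]
  rfl

theorem pb_pos (D : Dif n ψ χ) (hG₂ : IsMetric G₂) {x : E n} (hx : x ∈ M n) (v : E n)
    (hv : v ≠ 0) : 0 < ⟪pb ψ G₂ x v, v⟫ := by
  rw [pb_inner]
  apply hG₂.pos _ (D.hψM hx)
  intro h
  apply hv
  rw [← D.qp hx v, h, map_zero]

/-- the cone theorem, rigidity and filling versions -/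
theorem cone (hn : 0 < n) (c : ℝ) (hc : c < (n + 3) / (2 * (n + 1))) :
    ∃ ε : ℝ, 0 < ε ∧ ∀ (G₁ G₂ : E n → E n →L[ℝ] E n) (ψ χ : E n → E n), IsMetric G₁ →
      IsMetric G₂ → (∀ x ∈ M n, ExpDiffeo G₁ x) → Dif n ψ χ →
      (∀ a ∈ bM n, ∀ b ∈ bM n, rdist G₁ a b ≤ rdist G₂ a b) →
      (∀ x ∈ M n, ∀ v, |⟪(pb ψ G₂ x - G₁ x) v, v⟫| ≤ ε * ⟪G₁ x v, v⟫) →
      ∫ x in M n, Real.sqrt (G₁ x).det * tr2 (G₁ x) (pb ψ G₂ x - G₁ x) ≤
        c * ∫ x in M n, Real.sqrt (G₁ x).det * tr1 (G₁ x) (pb ψ G₂ x - G₁ x) ^ 2 →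
      (((∀ x ∈ M n, ExpDiffeo G₂ x) ∧
        (∀ a ∈ bM n, ∀ b ∈ bM n, rdist G₂ a b ≤ rdist G₁ a b)) ∨ vol G₂ ≤ vol G₁) →
      ∀ x ∈ M n, pb ψ G₂ x = G₁ x := by
  have hn0 : (0 : ℝ) ≤ n := Nat.cast_nonneg n
  set N : ℝ := n + 1 with hN
  have hN1 : 1 ≤ N := by rw [hN]; linarith
  -- choice of ε
  have hc' : c * (N / 2) < (n + 3) / 4 := by
    rw [lt_div_iff₀ (by positivity)] at hc
    rw [hN]
    linarith
  obtain ⟨δ, hδ0, hδ⟩ : ∃ δ : ℝ, 0 < δ ∧ (N / 2 + 20 * N ^ 3 * δ) * c < (n + 3) / 4 := by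
    rcases le_or_gt c 0 with h0 | h0
    · refine ⟨1, one_pos, ?_⟩
      have : (N / 2 + 20 * N ^ 3 * 1) * c ≤ 0 :=
        mul_nonpos_of_nonneg_of_nonpos (by positivity) h0
      have : (0 : ℝ) < (n + 3) / 4 := by positivity
      linarith
    · refine ⟨((n + 3) / 4 - c * (N / 2)) / (2 * (20 * N ^ 3 * c)), ?_, ?_⟩
      · apply div_pos (by linarith); positivity
      · have h1 : (N / 2 + 20 * N ^ 3 * (((n + 3) / 4 - c * (N / 2)) / (2 * (20 * N ^ 3 * c)))) * c =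
            c * (N / 2) + ((n + 3) / 4 - c * (N / 2)) / 2 := by
          field_simp
        rw [h1]; linarith
  set ε : ℝ := min δ (1 / (8 * N)) with hεd
  have hε0 : 0 < ε := lt_min hδ0 (by positivity)
  have hεN : N * ε ≤ 1 / 8 := by
    have h1 : ε ≤ 1 / (8 * N) := min_le_right _ _
    calc N * ε ≤ N * (1 / (8 * N)) := mul_le_mul_of_nonneg_left h1 (by linarith)
      _ = 1 / 8 := by field_simp
  have hε8 : ε ≤ 1 / 8 := by nlinarith
  have hεc : (N / 2 + 20 * N ^ 3 * ε) * c < (n + 3) / 4 := by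
    rcases le_or_gt c 0 with h0 | h0
    · have : (N / 2 + 20 * N ^ 3 * ε) * c ≤ 0 :=
        mul_nonpos_of_nonneg_of_nonpos (by positivity) h0
      have : (0 : ℝ) < (n + 3) / 4 := by positivity
      linarith
    · refine lt_of_le_of_lt ?_ hδ
      apply mul_le_mul_of_nonneg_right _ h0.le
      have h1 : ε ≤ δ := min_le_left _ _
      have : 20 * N ^ 3 * ε ≤ 20 * N ^ 3 * δ := mul_le_mul_of_nonneg_left h1 (by positivity)
      linarith
  refine ⟨ε, hε0, fun G₁ G₂ ψ χ hG₁ hG₂ hE₁ D hd hH hcone hor => ?_⟩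
  have hBc := pb_continuous ψ D.hψ hG₂.smooth.continuous
  have P : Pair n G₁ (pb ψ G₂) ε :=
    { hG := hG₁
      hBc := hBc
      hBs := fun x hx u v => by
        rw [pb_inner, pb_inner]; exact hG₂.symm _ (D.hψM hx) _ _
      hε := hε0
      hNε := hεN
      hH := hH }
  have hεle : ∀ x ∈ M n, ∀ v, |⟪(pb ψ G₂ x - G₁ x) v, v⟫| ≤ 2 * ε * ⟪G₁ x v, v⟫ := by
    intro x hx v
    refine (hH x hx v).trans ?_
    have := hG₁.nonneg hx v
    nlinarith
  have hI1 := basic hn hG₁ hE₁ hG₂ ψ D.hψ D.hψM D.hψb hd (ε := 2 * ε) (by linarith) hεle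
  set B := pb ψ G₂ with hB
  have hinv₁ : ∀ x ∈ M n, (G₁ x).IsInvertible := fun x hx => hG₁.inv hx
  have hinvB : ∀ x ∈ M n, (B x).IsInvertible := fun x hx =>
    posdef_isInvertible fun v hv => P.hBpos hx v hv
  have hs1 := (sqrt_det_contOn hG₁.smooth.continuous).continuousOn (s := M n)
  have hsB := (sqrt_det_contOn hBc).continuousOn (s := M n)
  have hDc : Continuous fun x => B x - G₁ x := hBc.sub hG₁.smooth.continuous
  have hDc' : Continuous fun x => G₁ x - B x := hG₁.smooth.continuous.sub hBc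
  have c1 := Pair.contOn_tr1 hG₁.smooth.continuous hDc hinv₁
  have c2 := Pair.contOn_tr2 hG₁.smooth.continuous hDc hinv₁
  have c1' := Pair.contOn_tr1 hBc hDc' hinvB
  have c2' := Pair.contOn_tr2 hBc hDc' hinvB
  have hMm : MeasurableSet (M n) := Metric.isClosed_closedBall.measurableSet
  have ci1 : ContinuousOn (fun x => Real.sqrt (G₁ x).det * (1 / 2 * (n + 2) * tr1 (G₁ x) (B x - G₁ x) -
        (1 - 2 * ε) / 8 * (2 * tr2 (G₁ x) (B x - G₁ x) + tr1 (G₁ x) (B x - G₁ x) ^ 2))) (M n) :=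
    hs1.mul ((continuousOn_const.mul c1).sub (continuousOn_const.mul
      ((continuousOn_const.mul c2).add (c1.pow 2))))
  have hGB : ∀ x, G₁ x + (B x - G₁ x) = B x := fun x => by abel
  have hneg : ∀ x, -(B x - G₁ x) = G₁ x - B x := fun x => by abel
  rcases hor with ⟨hE₂, hd'⟩ | hvol
  · -- rigidity version
    have hH2 : ∀ y ∈ M n, ∀ v, |⟪(pb χ G₁ y - G₂ y) v, v⟫| ≤ 2 * ε * ⟪G₂ y v, v⟫ := by
      intro y hy v
      set x := χ y with hx'
      have hx : x ∈ M n := D.hχM hy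
      have hψx : ψ x = y := D.h2 y hy
      set w := fderiv ℝ χ y v with hw
      have hv : fderiv ℝ ψ x w = v := by
        have := D.pq hx v
        rwa [hψx] at this
      have e1 : ⟪pb χ G₁ y v, v⟫ = ⟪G₁ x w, w⟫ := by rw [pb_inner]
      have e2 : ⟪B x w, w⟫ = ⟪G₂ y v, v⟫ := by rw [hB, pb_inner, hψx, hv]
      rw [_root_.sub_apply, inner_sub_left, e1, ← e2]
      have h3 := hH x hx w
      rw [_root_.sub_apply, inner_sub_left] at h3
      have h4 := hG₁.nonneg hx w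
      obtain ⟨h5, h6⟩ := abs_le.mp h3
      rw [abs_le]
      constructor <;> nlinarith
    have hI2 := basic hn hG₂ hE₂ hG₁ χ D.hχ D.hχM D.hχb hd' (ε := 2 * ε) (by linarith) hH2
    rw [second_int D hG₂ fun t₁ t₂ => 1 / 2 * (n + 2) * t₁ - (1 - 2 * ε) / 8 *
      (2 * t₂ + t₁ ^ 2)] at hI2
    have ci2 : ContinuousOn (fun x => Real.sqrt (B x).det * (1 / 2 * (n + 2) *
        tr1 (B x) (G₁ x - B x) - (1 - 2 * ε) / 8 * (2 * tr2 (B x) (G₁ x - B x) +
          tr1 (B x) (G₁ x - B x) ^ 2))) (M n) :=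
      hsB.mul ((continuousOn_const.mul c1').sub (continuousOn_const.mul
        ((continuousOn_const.mul c2').add (c1'.pow 2))))
    refine finish P (K := N / 2 + 20 * N ^ 3 * ε) (L := (n + 3) / 4) (c := c) (by positivity)
      (by positivity) hεc ?_ hcone
    refine (add_nonneg hI1 hI2).trans ?_
    rw [← integral_add (intOn ci1) (intOn ci2)]
    refine setIntegral_mono_on ((intOn ci1).add (intOn ci2)) (intOn (hs1.mul
      ((continuousOn_const.mul c2).sub (continuousOn_const.mul (c1.pow 2))))) hMm fun x hx => ?_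
    have h := point_B (G₁ x) (B x - G₁ x) (hG₁.symm x hx) (hG₁.pos x hx) (P.hHs hx) hε0 hεN
      (hH x hx)
    rw [hGB, hneg] at h
    exact h
  · -- filling version
    have hvB : vol B ≤ vol G₁ := by rw [hB, vol_pb D]; exact hvol
    have ci2 : ContinuousOn (fun x => (n + 2 : ℝ) * (Real.sqrt (B x).det - Real.sqrt (G₁ x).det))
        (M n) := continuousOn_const.mul (hsB.sub hs1)
    have hI2 : ∫ x in M n, (n + 2 : ℝ) * (Real.sqrt (B x).det - Real.sqrt (G₁ x).det) ≤ 0 := by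
      rw [integral_const_mul, integral_sub (intOn hsB) (intOn hs1)]
      apply mul_nonpos_of_nonneg_of_nonpos (by positivity)
      have : vol B - vol G₁ ≤ 0 := by linarith
      exact this
    refine finish P (K := N / 4 + 10 * N ^ 3 * ε) (L := (n + 3) / 8) (c := c) (by positivity)
      (by positivity) (by nlinarith) ?_ hcone
    refine (sub_nonneg.mpr (hI2.trans hI1)).trans ?_
    rw [← integral_sub (intOn ci1) (intOn ci2)]
    refine setIntegral_mono_on ((intOn ci1).sub (intOn ci2)) (intOn (hs1.mul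
      ((continuousOn_const.mul c2).sub (continuousOn_const.mul (c1.pow 2))))) hMm fun x hx => ?_
    have h := point_A (G₁ x) (B x - G₁ x) (hG₁.symm x hx) (hG₁.pos x hx) (P.hHs hx) hε0 hεN
      (hH x hx)
    rw [hGB] at h
    exact h

/-- the global theorem, rigidity version -/
theorem global_rig (G₁ G₂ : E n → E n →L[ℝ] E n) (ψ χ : E n → E n) (hG₁ : IsMetric G₁)
    (hG₂ : IsMetric G₂) (hE₁ : ∀ x ∈ M n, ExpDiffeo G₁ x) (hE₂ : ∀ x ∈ M n, ExpDiffeo G₂ x)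
    (D : Dif n ψ χ) (hd : ∀ a ∈ bM n, ∀ b ∈ bM n, rdist G₁ a b ≤ rdist G₂ a b)
    (hd' : ∀ a ∈ bM n, ∀ b ∈ bM n, rdist G₂ a b ≤ rdist G₁ a b)
    (h : ∫ x in M n, Real.sqrt (G₁ x).det * tr1 (G₁ x) (pb ψ G₂ x - G₁ x) ≤
      ∫ x in M n, Real.sqrt (pb ψ G₂ x).det * tr1 (pb ψ G₂ x) (pb ψ G₂ x - G₁ x)) :
    ∀ x ∈ M n, ∀ v, ⟪pb ψ G₂ x v, v⟫ = ⟪G₁ x v, v⟫ := by
  have e1 := energy hG₁ hE₁ hG₂ ψ D.hψ D.hψM D.hψb hd
  have e2 := (energy hG₂ hE₂ hG₁ χ D.hχ D.hχM D.hχb hd').1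
  have e3 : (∫ x in M n, Real.sqrt (G₂ x).det * LinearMap.trace ℝ (E n)
      (((G₂ x).inverse.comp (pb χ G₁ x - G₂ x) : E n →L[ℝ] E n) : E n →ₗ[ℝ] E n)) =
      ∫ x in M n, Real.sqrt (pb ψ G₂ x).det * tr1 (pb ψ G₂ x) (G₁ x - pb ψ G₂ x) :=
    second_int D hG₂ fun t₁ _ => t₁
  rw [e3] at e2
  have e4 : ∫ x in M n, Real.sqrt (pb ψ G₂ x).det * tr1 (pb ψ G₂ x) (G₁ x - pb ψ G₂ x) =
      - ∫ x in M n, Real.sqrt (pb ψ G₂ x).det * tr1 (pb ψ G₂ x) (pb ψ G₂ x - G₁ x) := by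
    rw [← integral_neg]
    congr 1
    funext x
    have h1 : G₁ x - pb ψ G₂ x = -(pb ψ G₂ x - G₁ x) := by abel
    have h2 : tr1 (pb ψ G₂ x) (-(pb ψ G₂ x - G₁ x)) = - tr1 (pb ψ G₂ x) (pb ψ G₂ x - G₁ x) := by
      unfold tr1
      rw [← map_neg]
      congr 1
      apply LinearMap.ext
      intro v
      show (pb ψ G₂ x).inverse ((-(pb ψ G₂ x - G₁ x)) v) =
        -((pb ψ G₂ x).inverse ((pb ψ G₂ x - G₁ x) v))
      rw [_root_.neg_apply, map_neg]
    rw [h1, h2]; ring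
  rw [e4] at e2
  exact e1.2 (h.trans (by linarith))

/-- the global theorem, filling version -/
theorem global_fill (G₁ G₂ : E n → E n →L[ℝ] E n) (ψ χ : E n → E n) (hG₁ : IsMetric G₁)
    (hG₂ : IsMetric G₂) (hE₁ : ∀ x ∈ M n, ExpDiffeo G₁ x)
    (D : Dif n ψ χ) (hd : ∀ a ∈ bM n, ∀ b ∈ bM n, rdist G₁ a b ≤ rdist G₂ a b)
    (hvol : vol G₂ ≤ vol G₁)
    (h : 1 / 2 * ∫ x in M n, Real.sqrt (G₁ x).det * tr1 (G₁ x) (pb ψ G₂ x - G₁ x) ≤
      vol (pb ψ G₂) - vol G₁) :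
    ∀ x ∈ M n, ∀ v, ⟪pb ψ G₂ x v, v⟫ = ⟪G₁ x v, v⟫ := by
  have e1 := energy hG₁ hE₁ hG₂ ψ D.hψ D.hψM D.hψb hd
  rw [vol_pb D] at h
  refine e1.2 ?_
  have : ∫ x in M n, Real.sqrt (G₁ x).det * tr1 (G₁ x) (pb ψ G₂ x - G₁ x) ≤ 0 := by linarith
  exact this

end KBR.CR
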