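import Pool.Agent.helper44.CR.Eig

/-!
# Quartic moments of an ellipsoid (cone rigidity)
-/

noncomputable section

namespace KBR.CR

open Set MeasureTheory
open scoped ContDiff RealInnerProductSpace

variable {n : ℕ}

theorem ball_quart (hn : 0 < n) : ∃ m : ℝ, 0 < m ∧ ∀ (S : E n →L[ℝ] E n),
    (∀ u v, ⟪S u, v⟫ = ⟪S v, u⟫) → ∀ κ : ℝ,
    ∫ q in Metric.closedBall (0 : E n) 1, (1 / 2 * (⟪q, q⟫ * ⟪S q, q⟫) - κ * ⟪S q, q⟫ ^ 2) =
      m * (1 / 2 * (n + 2) * LinearMap.trace ℝ (E n) (S : E n →ₗ[ℝ] E n) -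
        κ * (2 * LinearMap.trace ℝ (E n) ((S.comp S : E n →L[ℝ] E n) : E n →ₗ[ℝ] E n) +
          LinearMap.trace ℝ (E n) (S : E n →ₗ[ℝ] E n) ^ 2)) := by
  obtain ⟨c, hc0, hc⟩ := MomK.Phi_eq hn (0 + 2)
  refine ⟨c / 3, by positivity, fun S hS κ => ?_⟩
  have hSs : (S : E n →ₗ[ℝ] E n).IsSymmetric := by
    intro u v
    have h := hS u v
    show ⟪S u, v⟫ = ⟪u, S v⟫
    rw [h, real_inner_comm]
  have hfr : Module.finrank ℝ (E n) = n := by simp
  set b := hSs.eigenvectorBasis hfr with hb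
  set lam := hSs.eigenvalues hfr with hlam
  have hSb : ∀ i, S (b i) = lam i • b i := fun i => hSs.apply_eigenvectorBasis hfr i
  have hSq : ∀ q, ⟪S q, q⟫ = ∑ i, lam i * ⟪q, b i⟫ ^ 2 := by
    intro q
    rw [← b.sum_inner_mul_inner (S q) q]
    refine Finset.sum_congr rfl fun i _ => ?_
    rw [hS q (b i), hSb i, inner_smul_left, real_inner_comm q (b i)]
    simp only [conj_trivial]
    ring
  have hqq : ∀ q : E n, ⟪q, q⟫ = ∑ i, ⟪q, b i⟫ ^ 2 := by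
    intro q
    rw [← b.sum_inner_mul_inner q q]
    refine Finset.sum_congr rfl fun i _ => ?_
    rw [real_inner_comm q (b i)]
    ring
  have hQi : ∀ i j, IntegrableOn (fun q : E n => ⟪q, b i⟫ ^ 2 * ⟪q, b j⟫ ^ 2)
      (Metric.closedBall (0 : E n) 1) := fun i j => by
    refine ContinuousOn.integrableOn_compact (isCompact_closedBall _ _) ?_
    fun_prop
  have hQ : ∀ i j, ∫ q in Metric.closedBall (0 : E n) 1, ⟪q, b i⟫ ^ 2 * ⟪q, b j⟫ ^ 2 =
      c / 3 * (2 * (if i = j then 1 else 0) + 1) := by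
    intro i j
    have h1 := MomK.M2_diag 0 c hc (b i) (b j)
    unfold MomK.M2 at h1
    have h2 : ∫ q in Metric.closedBall (0 : E n) 1, ⟪q, b i⟫ ^ 2 * ⟪q, b j⟫ ^ 2 =
        ∫ q in Metric.closedBall (0 : E n) 1,
          ⟪q, b i⟫ ^ (2 * (0 + 1)) * (⟪q, b j⟫ * ⟪q, b j⟫) := by
      refine integral_congr_ae (Filter.Eventually.of_forall fun q => ?_)
      simp only; ring
    rw [h2, h1]
    have h3 : ∀ i : Fin n, ⟪b i, b i⟫ = (1 : ℝ) := fun i => by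
      rw [real_inner_self_eq_norm_sq, b.norm_eq_one]; norm_num
    rw [h3, h3, b.inner_eq_ite]
    by_cases hij : i = j
    · simp [hij]
    · simp [hij]
  have htr : LinearMap.trace ℝ (E n) (S : E n →ₗ[ℝ] E n) = ∑ i, lam i :=
    trace_of_basis b.toBasis _ _ fun i => by
      rw [OrthonormalBasis.coe_toBasis]; exact hSb i
  have htr2 : LinearMap.trace ℝ (E n) ((S.comp S : E n →L[ℝ] E n) : E n →ₗ[ℝ] E n) =
      ∑ i, lam i ^ 2 :=
    trace_of_basis b.toBasis _ _ fun i => by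
      rw [OrthonormalBasis.coe_toBasis]
      show S (S (b i)) = _
      rw [hSb i, map_smul, hSb i, smul_smul, sq]
  have hexp : ∀ q : E n, 1 / 2 * (⟪q, q⟫ * ⟪S q, q⟫) - κ * ⟪S q, q⟫ ^ 2 =
      ∑ i, ∑ j, (1 / 2 * lam j - κ * (lam i * lam j)) * (⟪q, b i⟫ ^ 2 * ⟪q, b j⟫ ^ 2) := by
    intro q
    rw [hSq q, hqq q, sq, Finset.sum_mul_sum, Finset.sum_mul_sum, Finset.mul_sum, Finset.mul_sum,
      ← Finset.sum_sub_distrib]
    refine Finset.sum_congr rfl fun i _ => ?_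
    rw [Finset.mul_sum, Finset.mul_sum, ← Finset.sum_sub_distrib]
    refine Finset.sum_congr rfl fun j _ => ?_
    ring
  simp_rw [hexp]
  rw [integral_finsetSum _ fun i _ => integrable_finsetSum _ fun j _ => (hQi i j).const_mul _]
  have h5 : ∀ i : Fin n, ∫ q in Metric.closedBall (0 : E n) 1,
      ∑ j, (1 / 2 * lam j - κ * (lam i * lam j)) * (⟪q, b i⟫ ^ 2 * ⟪q, b j⟫ ^ 2) =
      ∑ j, (1 / 2 * lam j - κ * (lam i * lam j)) * (c / 3 * (2 * (if i = j then 1 else 0) + 1)) := by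
    intro i
    rw [integral_finsetSum _ fun j _ => (hQi i j).const_mul _]
    refine Finset.sum_congr rfl fun j _ => ?_
    rw [integral_const_mul, hQ]
  simp_rw [h5]
  rw [htr, htr2]
  have h6 : ∀ i : Fin n, ∑ j, (1 / 2 * lam j - κ * (lam i * lam j)) *
      (c / 3 * (2 * (if i = j then 1 else 0) + 1)) =
      c / 3 * (1 / 2 * (∑ j, lam j) - κ * (lam i * ∑ j, lam j) +
        2 * (1 / 2 * lam i - κ * lam i ^ 2)) := by
    intro i
    have h7 : ∀ j, (1 / 2 * lam j - κ * (lam i * lam j)) *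
        (c / 3 * (2 * (if i = j then 1 else 0) + 1)) =
        c / 3 * (1 / 2) * lam j - c / 3 * κ * lam i * lam j +
          (if i = j then 2 * (c / 3) * (1 / 2 * lam j - κ * (lam i * lam j)) else 0) := by
      intro j
      by_cases hij : i = j
      · simp [hij]; ring
      · simp [hij]; ring
    simp_rw [h7]
    rw [Finset.sum_add_distrib, Finset.sum_sub_distrib, ← Finset.mul_sum, ← Finset.mul_sum,
      Finset.sum_ite_eq Finset.univ i]
    simp only [Finset.mem_univ, if_true]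
    ring
  simp_rw [h6]
  rw [← Finset.mul_sum, Finset.sum_add_distrib, Finset.sum_sub_distrib, Finset.sum_const,
    Finset.card_univ, Fintype.card_fin, ← Finset.mul_sum, ← Finset.mul_sum, Finset.sum_sub_distrib,
    ← Finset.mul_sum, ← Finset.mul_sum, ← Finset.sum_mul]
  simp only [nsmul_eq_mul]
  ring

/-- the quartic moment formula over the dual unit ball of `G` -/
theorem quart (hn : 0 < n) : ∃ m : ℝ, 0 < m ∧ ∀ G H : E n →L[ℝ] E n,
    (∀ u v, ⟪G u, v⟫ = ⟪G v, u⟫) → (∀ v, v ≠ 0 → 0 < ⟪G v, v⟫) →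
    (∀ u v, ⟪H u, v⟫ = ⟪H v, u⟫) → ∀ κ : ℝ,
    ∫ p in {p : E n | ⟪G.inverse p, p⟫ ≤ 1}, (1 / 2 * (⟪G.inverse p, p⟫ *
        ⟪H (G.inverse p), G.inverse p⟫) - κ * ⟪H (G.inverse p), G.inverse p⟫ ^ 2) =
      m * (Real.sqrt G.det * (1 / 2 * (n + 2) * tr1 G H - κ * (2 * tr2 G H + tr1 G H ^ 2))) := by
  obtain ⟨m, hm0, hm⟩ := ball_quart hn
  refine ⟨m, hm0, fun G H hs hp hH κ => ?_⟩
  obtain ⟨R, R', hRs, hRs', hRR, hR1, hR2⟩ := diag_sqrt G hs hp
  have a1 : ∀ x, R (R' x) = x := fun x => by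
    have := congrArg (fun T : E n →L[ℝ] E n => T x) hR1; simpa using this
  have a2 : ∀ x, R' (R x) = x := fun x => by
    have := congrArg (fun T : E n →L[ℝ] E n => T x) hR2; simpa using this
  have hGi : G.inverse = R'.comp R' := by
    refine ContinuousLinearMap.inverse_eq ?_ ?_
    · ext1 x; rw [← hRR]; simp [a1]
    · ext1 x; rw [← hRR]; simp [a2]
  have himg : {p : E n | ⟪G.inverse p, p⟫ ≤ 1} = R '' Metric.closedBall 0 1 := by
    ext p
    simp only [mem_ofPred_eq, mem_image, mem_closedBall_zero_iff]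
    constructor
    · intro h
      refine ⟨R' p, ?_, a1 p⟩
      rw [hGi] at h
      have h2 : ⟪R' (R' p), p⟫ = ‖R' p‖ ^ 2 := by
        rw [hRs', real_inner_self_eq_norm_sq]
      simp only [ContinuousLinearMap.comp_apply] at h
      rw [h2] at h
      nlinarith [norm_nonneg (R' p)]
    · rintro ⟨q, hq, rfl⟩
      rw [hGi]
      have h2 : ⟪R' (R' (R q)), R q⟫ = ‖q‖ ^ 2 := by
        rw [hRs', a2, real_inner_self_eq_norm_sq]
      simp only [ContinuousLinearMap.comp_apply]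
      rw [h2]
      nlinarith [norm_nonneg q]
  have hdet : |R.det| = Real.sqrt G.det := by
    have : G.det = R.det * R.det := by
      rw [← hRR]
      simp only [ContinuousLinearMap.det, ContinuousLinearMap.toLinearMap_comp, LinearMap.det_comp]
    rw [this, Real.sqrt_mul_self_eq_abs]
  have hinj : InjOn R (Metric.closedBall 0 1) := fun x _ y _ h => by
    rw [← a2 x, ← a2 y, h]
  set S : E n →L[ℝ] E n := R'.comp (H.comp R') with hS
  have hSs : ∀ u v, ⟪S u, v⟫ = ⟪S v, u⟫ := by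
    intro u v
    have e1 : ∀ u v, ⟪S u, v⟫ = ⟪H (R' u), R' v⟫ := fun u v => by
      show ⟪R' (H (R' u)), v⟫ = _
      rw [hRs', real_inner_comm]
    rw [e1, e1, hH]
  rw [himg, integral_image_eq_integral_abs_det_fderiv_smul volume
    Metric.isClosed_closedBall.measurableSet
    (fun x _ => R.hasFDerivAt.hasFDerivWithinAt) hinj]
  have e1 : ∀ q, |R.det| • (1 / 2 * (⟪G.inverse (R q), R q⟫ *
        ⟪H (G.inverse (R q)), G.inverse (R q)⟫) -
          κ * ⟪H (G.inverse (R q)), G.inverse (R q)⟫ ^ 2) =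
      Real.sqrt G.det * (1 / 2 * (⟪q, q⟫ * ⟪S q, q⟫) - κ * ⟪S q, q⟫ ^ 2) := by
    intro q
    rw [hdet, hGi]
    have h3 : ⟪(R'.comp R') (R q), R q⟫ = ⟪q, q⟫ := by
      simp only [ContinuousLinearMap.comp_apply]
      rw [hRs', a2]
    have h4 : ⟪H ((R'.comp R') (R q)), (R'.comp R') (R q)⟫ = ⟪S q, q⟫ := by
      simp only [ContinuousLinearMap.comp_apply, a2, hS]
      rw [hRs' (H (R' q)) q, real_inner_comm (H (R' q))]
    rw [h3, h4, smul_eq_mul]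
  simp_rw [e1]
  rw [integral_const_mul, hm S hSs κ]
  have t1 : LinearMap.trace ℝ (E n) (S : E n →ₗ[ℝ] E n) = tr1 G H := by
    unfold tr1
    rw [hGi, hS]
    simp only [ContinuousLinearMap.toLinearMap_comp]
    rw [← LinearMap.comp_assoc, LinearMap.trace_comp_comm', ← LinearMap.comp_assoc]
  have t2 : LinearMap.trace ℝ (E n) ((S.comp S : E n →L[ℝ] E n) : E n →ₗ[ℝ] E n) = tr2 G H := by
    unfold tr2
    rw [hGi, hS]
    have h5 : (((R'.comp (H.comp R')).comp (R'.comp (H.comp R')) : E n →L[ℝ] E n) :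
        E n →ₗ[ℝ] E n) = (R' : E n →ₗ[ℝ] E n) ∘ₗ ((H : E n →ₗ[ℝ] E n) ∘ₗ (R' : E n →ₗ[ℝ] E n) ∘ₗ
          (R' : E n →ₗ[ℝ] E n) ∘ₗ (H : E n →ₗ[ℝ] E n) ∘ₗ (R' : E n →ₗ[ℝ] E n)) := rfl
    have h6 : ((((R'.comp R').comp H).comp ((R'.comp R').comp H) : E n →L[ℝ] E n) :
        E n →ₗ[ℝ] E n) = ((R' : E n →ₗ[ℝ] E n) ∘ₗ (R' : E n →ₗ[ℝ] E n) ∘ₗ
          (H : E n →ₗ[ℝ] E n) ∘ₗ (R' : E n →ₗ[ℝ] E n)) ∘ₗ
          ((R' : E n →ₗ[ℝ] E n) ∘ₗ (H : E n →ₗ[ℝ] E n)) := rfl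
    rw [h5, LinearMap.trace_comp_comm']
    have h7 : ((H : E n →ₗ[ℝ] E n) ∘ₗ (R' : E n →ₗ[ℝ] E n) ∘ₗ
          (R' : E n →ₗ[ℝ] E n) ∘ₗ (H : E n →ₗ[ℝ] E n) ∘ₗ (R' : E n →ₗ[ℝ] E n)) ∘ₗ
          (R' : E n →ₗ[ℝ] E n) = (H : E n →ₗ[ℝ] E n) ∘ₗ ((R' : E n →ₗ[ℝ] E n) ∘ₗ
          (R' : E n →ₗ[ℝ] E n) ∘ₗ (H : E n →ₗ[ℝ] E n) ∘ₗ (R' : E n →ₗ[ℝ] E n) ∘ₗ
            (R' : E n →ₗ[ℝ] E n)) := rfl
    rw [h7, LinearMap.trace_comp_comm']
    rfl
  rw [t1, t2]
  ring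

end KBR.CR
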