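import Pool.Agent.helper44.CR.Main

/-!
# Cone rigidity: definitions used in the statement

`KBR.M n` is the closed unit ball of `KBR.E n = ℝⁿ`.  A field of endomorphisms `G : Fld n` represents
the field of bilinear forms `g_x(u, v) = ⟪G x u, v⟫` (see `Pool.Agent.helper21.KBR.Stmt`).
-/

noncomputable section

namespace KBR.CR

open Set MeasureTheory KBR.St
open scoped ContDiff RealInnerProductSpace

variable {n : ℕ}

/-- `exp_x` is a diffeomorphism from its maximal domain onto `M`, for every `x ∈ M`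
(true for simple metrics) -/
def AllExp (G : Fld n) : Prop := ∀ x ∈ M n, St.ExpDiffeo G x

/-- `ψ` is a diffeomorphism of the closed ball `M` onto itself which is the identity on `∂M`,
and `χ` is its inverse -/
structure BdDiffeo (ψ χ : E n → E n) : Prop where
  map : BdMap ψ
  inv : BdMap χ
  left : ∀ x ∈ M n, χ (ψ x) = x
  right : ∀ x ∈ M n, ψ (χ x) = x

/-- endomorphisms of `ℝⁿ` -/
abbrev Op (n : ℕ) : Type := E n →L[ℝ] E n

/-- composition `A ∘ B` -/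
def cmp (A B : Op n) : Op n := ContinuousLinearMap.comp A B

/-- inverse of `A` (when `A` is invertible) -/
def inve (A : Op n) : Op n := ContinuousLinearMap.inverse A

/-- trace of `A` -/
def tra (A : Op n) : ℝ := LinearMap.trace ℝ (E n) (A : E n →ₗ[ℝ] E n)

/-- `b = ψ^* g` on `M`: `b_x(u, v) = g_{ψ x}(dψ_x u, dψ_x v)` -/
def IsPull (ψ : E n → E n) (G B : Fld n) : Prop :=
  ∀ x ∈ M n, ∀ u v, gm B x u v = gm G (ψ x) (dif ψ x u) (dif ψ x v)

/-- the difference `h = b - g` of two fields of bilinear forms -/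
def dev (G B : Fld n) : Fld n := fun x => B x - G x

/-- the volume density `√det g` -/
def dens (G : Fld n) (x : E n) : ℝ := Real.sqrt (G x).det

/-- the endomorphism `g⁻¹ h` at `x` -/
def rel (G H : Fld n) (x : E n) : Op n := cmp (inve (G x)) (H x)

/-- `tr_g h` at `x` -/
def trg (G H : Fld n) (x : E n) : ℝ := tra (rel G H x)

/-- `|h|_g²` at `x` (`= tr ((g⁻¹ h)²)`, for symmetric `h`) -/
def nsqg (G H : Fld n) (x : E n) : ℝ := tra (cmp (rel G H x) (rel G H x))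

/-- `∫_M f dV_g` -/
def integ (G : Fld n) (f : E n → ℝ) : ℝ := ∫ x in M n, dens G x * f x

/-- the volume of `(M, g)` -/
def Vol (G : Fld n) : ℝ := ∫ x in M n, dens G x

/-- `|h|_g ≤ ε` for `h = b - g` (operator norm): `|h_x(v, v)| ≤ ε g_x(v, v)` -/
def Near (ε : ℝ) (G B : Fld n) : Prop :=
  ∀ x ∈ M n, ∀ v, |gm B x v v - gm G x v v| ≤ ε * gm G x v v

/-- `∫_M |h|_g² dV_g ≤ c ∫_M (tr_g h)² dV_g` for `h = b - g` -/
def InCone (c : ℝ) (G B : Fld n) : Prop :=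
  integ G (nsqg G (dev G B)) ≤ c * integ G (fun x => trg G (dev G B) x ^ 2)

lemma BdDiffeo.old {ψ χ : E n → E n} (h : BdDiffeo ψ χ) : Dif n ψ χ :=
  ⟨h.map.smooth, h.inv.smooth, h.map.maps, h.inv.maps, h.map.bd, h.inv.bd, h.left, h.right⟩

lemma IsPull.eq {ψ : E n → E n} {G B : Fld n} (h : IsPull ψ G B) {x : E n} (hx : x ∈ M n) :
    B x = pb ψ G x := by
  ext1 u
  apply ext_inner_right ℝ
  intro v
  rw [pb_inner]
  exact h x hx u v

lemma pullEq_of {G₁ G₂ : Fld n} {ψ : E n → E n} (hG₁ : Metric G₁) (hG₂ : Metric G₂)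
    (hψM : MapsTo ψ (M n) (M n))
    (h : ∀ x ∈ M n, ∀ v, ⟪pb ψ G₂ x v, v⟫ = ⟪G₁ x v, v⟫) : PullEq G₁ G₂ ψ := by
  intro x hx u v
  have h1 := polarize (A := pb ψ G₂ x) (C := G₁ x)
    (by intro u v; rw [pb_inner, pb_inner]; exact hG₂.symm _ (hψM hx) _ _)
    (hG₁.symm x hx) (h x hx) u v
  rw [pb_inner] at h1
  exact h1

theorem cone_theorem (n : ℕ) (hn : 2 ≤ n) (c : ℝ) (hc : c < (n + 3) / (2 * (n + 1))) :
    ∃ ε > 0, ∀ (G₁ G₂ B : Fld n) (ψ χ : E n → E n),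
      Metric G₁ → Metric G₂ → AllExp G₁ → BdLe G₁ G₂ → BdDiffeo ψ χ → IsPull ψ G₂ B →
      Near ε G₁ B → InCone c G₁ B →
      ((AllExp G₂ ∧ BdLe G₂ G₁) ∨ Vol G₂ ≤ Vol G₁) →
      PullEq G₁ G₂ ψ := by
  obtain ⟨ε, hε, h⟩ := cone (n := n) (by omega) c hc
  refine ⟨ε, hε, fun G₁ G₂ B ψ χ hG₁ hG₂ hE₁ hd hD hB hN hC hor => ?_⟩
  have hMm : MeasurableSet (M n) := Metric.isClosed_closedBall.measurableSet
  have i1 : integ G₁ (nsqg G₁ (dev G₁ B)) =
      ∫ x in M n, Real.sqrt (G₁ x).det * tr2 (G₁ x) (pb ψ G₂ x - G₁ x) := by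
    apply setIntegral_congr_fun hMm
    intro x hx
    show Real.sqrt (G₁ x).det * tr2 (G₁ x) (B x - G₁ x) = _
    rw [hB.eq hx]
  have i2 : integ G₁ (fun x => trg G₁ (dev G₁ B) x ^ 2) =
      ∫ x in M n, Real.sqrt (G₁ x).det * tr1 (G₁ x) (pb ψ G₂ x - G₁ x) ^ 2 := by
    apply setIntegral_congr_fun hMm
    intro x hx
    show Real.sqrt (G₁ x).det * tr1 (G₁ x) (B x - G₁ x) ^ 2 = _
    rw [hB.eq hx]
  have hC' : ∫ x in M n, Real.sqrt (G₁ x).det * tr2 (G₁ x) (pb ψ G₂ x - G₁ x) ≤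
      c * ∫ x in M n, Real.sqrt (G₁ x).det * tr1 (G₁ x) (pb ψ G₂ x - G₁ x) ^ 2 := by
    rw [← i1, ← i2]; exact hC
  have h1 := h G₁ G₂ ψ χ hG₁.old hG₂.old (fun x hx => (hE₁ x hx).old) hD.old hd
    (fun x hx v => by
      have := hN x hx v
      rw [_root_.sub_apply, inner_sub_left, ← hB.eq hx]
      exact this) hC' (by
      rcases hor with ⟨hE₂, hd'⟩ | hv
      · exact Or.inl ⟨fun x hx => (hE₂ x hx).old, hd'⟩
      · exact Or.inr hv)
  exact pullEq_of hG₁ hG₂ hD.map.maps fun x hx v => by rw [h1 x hx]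

end KBR.CR
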