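import Pool.Agent.helper44.CR.Quart
import Pool.Agent.helper21.KBR.Final

/-!
# The weighted transport inequality and its quartic form (cone rigidity)
-/

noncomputable section

namespace KBR.CR

open Set MeasureTheory Filter Topology
open scoped ContDiff RealInnerProductSpace

variable {n : ℕ} {G B : E n → E n →L[ℝ] E n}

/-- transported inequality with the weight `|p|²` -/
theorem int_wFz_nonneg {G₂ : E n → E n →L[ℝ] E n} (hG : IsMetric G)
    (hE : ∀ x ∈ M n, ExpDiffeo G x) (hG₂ : Continuous G₂)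
    (ψ : E n → E n) (hψ : ContDiff ℝ ∞ ψ) (hψM : MapsTo ψ (M n) (M n))
    (hψb : ∀ x ∈ bM n, ψ x = x)
    (hd : ∀ a ∈ bM n, ∀ b ∈ bM n, rdist G a b ≤ rdist G₂ a b) :
    0 ≤ ∫ z in Ao G, dsq G z * Fz G (pb ψ G₂) z := by
  classical
  obtain ⟨φ, hφ, h0, hadd, hmp, hgeo'⟩ := geodesic_flow G hG
  have hgeo : GeoProp G φ := hgeo'
  have hBc := pb_continuous ψ hψ hG₂
  set F₀ : E n × E n → ℝ := fun z => dsq G z * Fz G (pb ψ G₂) z with hF₀
  have hF₀c : ContinuousOn F₀ (CM n) := (dsq_contOn hG).mul (Fz_contOn hG hBc)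
  have hAC : Ao G ⊆ CM n := fun z hz => hz.1
  have hinv : ∀ z ∈ Ao G, ∀ s ∈ orbI φ (CM n) z, φ s z ∈ Ao G := by
    intro z hz s hs
    have h1 := (hgeo z hz.1 hz.2.2 s hs).1
    refine ⟨hs s right_mem_uIcc, ?_, ?_⟩
    · rw [h1]; exact hz.2.1
    · rw [h1]; exact hz.2.2
  have hmeas : Measurable ((Ao G).piecewise F₀ 0) :=
    (hF₀c.mono hAC).measurable_piecewise continuousOn_const (Ao_meas hG)
  obtain ⟨K, hK⟩ := (Ab_compact hG).exists_bound_of_continuousOn (hF₀c.mono (fun z hz => hz.1))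
  have hpw : ∀ z ∈ Ao G, (Ao G).piecewise F₀ 0 z = F₀ z := fun z hz => by
    simp [Set.piecewise, hz]
  have key := transport (volume : Measure (E n × E n)) φ hφ h0 hadd hmp (CM n) (Ao G)
    isClosed_CM hAC (Ao_meas hG) (Ao_finite hG) hinv ((Ao G).piecewise F₀ 0) hmeas
    ⟨K, fun z hz => by rw [hpw z hz]; exact hK z (Ao_sub hz)⟩
    (fun z hz => orbI_bdd hG hgeo h0 hE hz.1 hz.2.1 hz.2.2) ?_ ?_
  · rw [setIntegral_congr_fun (Ao_meas hG) hpw] at key
    exact key
  · -- positivity of the time interval for interior points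
    have hsph : ∀ᵐ z : E n × E n, z.1 ∉ bM n := by
      have h1 : volume {z : E n × E n | z.1 ∈ bM n} = 0 := by
        have h2 : {z : E n × E n | z.1 ∈ bM n} = (bM n) ×ˢ univ := by
          ext z; simp
        rw [h2, Measure.volume_eq_prod, Measure.prod_prod]
        rw [show volume (bM n) = 0 from Measure.addHaar_sphere_of_ne_zero _ _ one_ne_zero, zero_mul]
      rw [ae_iff]
      simpa using h1
    filter_upwards [ae_restrict_of_ae hsph, ae_restrict_mem (Ao_meas hG)] with z hz hzA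
    have hball : z.1 ∈ Metric.ball (0 : E n) 1 := by
      have h1 := hzA.1
      rw [M, Metric.mem_closedBall] at h1
      rw [bM, Metric.mem_sphere] at hz
      exact Metric.mem_ball.mpr (lt_of_le_of_ne h1 hz)
    have hc : Continuous (fun r : ℝ => (φ r z).1) :=
      continuous_fst.comp (hφ.comp (continuous_id.prodMk continuous_const))
    have hn := hc.continuousAt.preimage_mem_nhds (x := (0 : ℝ)) (t := Metric.ball (0 : E n) 1)
      (by rw [h0]; exact Metric.isOpen_ball.mem_nhds hball)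
    obtain ⟨ε, hε, hεs⟩ := Metric.mem_nhds_iff.mp hn
    have hsub : Ioo (-ε) ε ⊆ orbI φ (CM n) z := by
      intro s hs r hr
      have hr' : r ∈ Metric.ball (0 : ℝ) ε := by
        rw [Metric.mem_ball, Real.dist_eq, sub_zero, abs_lt]
        rw [mem_uIcc] at hr
        rcases hr with hr | hr
        · exact ⟨by linarith [hr.1], by linarith [hr.2, hs.2]⟩
        · exact ⟨by linarith [hr.1, hs.1], by linarith [hr.2]⟩
      exact ball_subset_M (hεs hr')
    refine lt_of_lt_of_le ?_ (measure_mono hsub)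
    rw [Real.volume_Ioo]
    simpa using by linarith
  · intro z hz
    have h1 := orbit_integral hG hE hG₂ ψ hψ hψM hψb hd hφ h0 hgeo hz.1 hz.2.1 hz.2.2
    have hIm : MeasurableSet (orbI φ (CM n) z) := by
      have := (orbI_closed φ hφ (CM n) isClosed_CM).preimage
        (f := fun s : ℝ => (s, z)) (by fun_prop)
      exact this.measurableSet
    rw [setIntegral_congr_fun hIm (g := fun r => dsq G z * Fz G (pb ψ G₂) (φ r z))
      (fun r hr => by
        rw [hpw _ (hinv z hz r hr), hF₀]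
        simp only
        rw [(hgeo z hz.1 hz.2.2 r hr).1])]
    rw [integral_const_mul]
    exact mul_nonneg (dsq_nonneg hG hz.1) h1

theorem sqrt_bound {x ε : ℝ} (hε1 : ε ≤ 1) (hx : |x| ≤ ε) :
    Real.sqrt (1 + x) ≤ 1 + x / 2 - (1 - ε) / 8 * x ^ 2 := by
  have hx1 := (abs_le.mp hx).1
  have hx2 := (abs_le.mp hx).2
  have hε0 : 0 ≤ ε := (abs_nonneg x).trans hx
  have hxx : x ^ 2 ≤ 1 := by nlinarith
  have hpos : 0 ≤ 1 + x / 2 - (1 - ε) / 8 * x ^ 2 := by nlinarith
  rw [show 1 + x / 2 - (1 - ε) / 8 * x ^ 2 = Real.sqrt ((1 + x / 2 - (1 - ε) / 8 * x ^ 2) ^ 2) from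
    (Real.sqrt_sq hpos).symm]
  apply Real.sqrt_le_sqrt
  set a := (1 - ε) / 8 with ha
  have ha0 : 0 ≤ a := by rw [ha]; linarith
  have ha1 : a ≤ 1 / 8 := by rw [ha]; linarith
  have key : 0 ≤ x ^ 2 * (1 / 4 - 2 * a - a * x + a ^ 2 * x ^ 2) := by
    apply mul_nonneg (sq_nonneg _)
    have h1 : 1 / 4 - 2 * a = ε / 4 := by rw [ha]; ring
    have h2 : a * x ≤ 1 / 8 * ε := by nlinarith
    nlinarith [sq_nonneg (a * x)]
  nlinarith [key]

/-- pointwise upper bound of the integrand -/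
theorem wFz_le {z : E n × E n} (hG : IsMetric G) (hz : z.1 ∈ M n) {ε : ℝ} (hε1 : ε ≤ 1)
    (hH : ∀ v, |⟪(B z.1 - G z.1) v, v⟫| ≤ ε * ⟪G z.1 v, v⟫) :
    dsq G z * Fz G B z ≤ 1 / 2 * (⟪(G z.1).inverse z.2, z.2⟫ *
        ⟪(B z.1 - G z.1) ((G z.1).inverse z.2), (G z.1).inverse z.2⟫) -
        (1 - ε) / 8 * ⟪(B z.1 - G z.1) ((G z.1).inverse z.2), (G z.1).inverse z.2⟫ ^ 2 := by
  set v := (G z.1).inverse z.2 with hv
  set η := ⟪(B z.1 - G z.1) v, v⟫ with hη
  have hq : ⟪G z.1 v, v⟫ = dsq G z := by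
    rw [hv, hG.apply_inv hz, real_inner_comm]; rfl
  have hq' : ⟪v, z.2⟫ = dsq G z := rfl
  have hηq : |η| ≤ ε * dsq G z := by rw [← hq]; exact hH v
  rw [hq']
  rcases (dsq_nonneg hG hz).eq_or_lt with h0 | h0
  · have h0' : dsq G z = 0 := h0.symm
    rw [h0'] at hηq ⊢
    have : η = 0 := by
      rw [mul_zero] at hηq
      exact abs_eq_zero.mp (le_antisymm hηq (abs_nonneg _))
    rw [this]; simp
  · set q := dsq G z with hqd
    have hx : |η / q| ≤ ε := by
      rw [abs_div, abs_of_pos h0, div_le_iff₀ h0]; exact hηq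
    have h1 := sqrt_bound hε1 hx
    have hB : ⟪B z.1 v, v⟫ = q * (1 + η / q) := by
      have : η = ⟪B z.1 v, v⟫ - q := by
        rw [hη, _root_.sub_apply, inner_sub_left, hq]
      rw [this]; field_simp; ring
    have hFz : Fz G B z = Real.sqrt q * (Real.sqrt (q * (1 + η / q)) - Real.sqrt q) := by
      unfold Fz nrm
      rw [show vl G z = v from rfl, hB]
    rw [hFz, Real.sqrt_mul h0.le]
    have hs : Real.sqrt q * Real.sqrt q = q := Real.mul_self_sqrt h0.le
    have e1 : q * (Real.sqrt q * (Real.sqrt q * Real.sqrt (1 + η / q) - Real.sqrt q)) =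
        q ^ 2 * (Real.sqrt (1 + η / q) - 1) := by
      have : Real.sqrt q * (Real.sqrt q * Real.sqrt (1 + η / q) - Real.sqrt q) =
        (Real.sqrt q * Real.sqrt q) * (Real.sqrt (1 + η / q) - 1) := by ring
      rw [this, hs]; ring
    rw [e1]
    have e2 : 1 / 2 * (q * η) - (1 - ε) / 8 * η ^ 2 =
        q ^ 2 * (1 + (η / q) / 2 - (1 - ε) / 8 * (η / q) ^ 2 - 1) := by
      field_simp; ring
    rw [e2]
    apply mul_le_mul_of_nonneg_left _ (sq_nonneg q)
    linarith

/-- the quartic form, integrated over the ball -/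
theorem int_quart (hn : 0 < n) : ∃ m : ℝ, 0 < m ∧ ∀ (G D : E n → E n →L[ℝ] E n), IsMetric G →
    Continuous D → (∀ x ∈ M n, ∀ u v, ⟪D x u, v⟫ = ⟪D x v, u⟫) → ∀ κ : ℝ,
    ∫ z in Ab G, (1 / 2 * (⟪(G z.1).inverse z.2, z.2⟫ *
        ⟪D z.1 ((G z.1).inverse z.2), (G z.1).inverse z.2⟫) -
        κ * ⟪D z.1 ((G z.1).inverse z.2), (G z.1).inverse z.2⟫ ^ 2) =
      m * ∫ x in M n, Real.sqrt (G x).det * (1 / 2 * (n + 2) * tr1 (G x) (D x) -
        κ * (2 * tr2 (G x) (D x) + tr1 (G x) (D x) ^ 2)) := by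
  obtain ⟨m, hm, hq⟩ := quart hn
  refine ⟨m, hm, fun G D hG hD hDs κ => ?_⟩
  have hcont : ContinuousOn (fun z : E n × E n => 1 / 2 * (⟪(G z.1).inverse z.2, z.2⟫ *
        ⟪D z.1 ((G z.1).inverse z.2), (G z.1).inverse z.2⟫) -
        κ * ⟪D z.1 ((G z.1).inverse z.2), (G z.1).inverse z.2⟫ ^ 2) (Ab G) := by
    have h1 : ContinuousOn (fun z : E n × E n => (G z.1).inverse z.2) (Ab G) :=
      (vl_contOn hG).mono (fun z hz => hz.1)
    have h2 : ContinuousOn (fun z : E n × E n => D z.1) (Ab G) :=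
      (hD.comp continuous_fst).continuousOn
    have h3 := (h2.clm_apply h1).inner (𝕜 := ℝ) h1
    have h4 := h1.inner (𝕜 := ℝ) (continuous_snd.continuousOn (s := Ab G))
    exact (continuousOn_const.mul (h4.mul h3)).sub (continuousOn_const.mul (h3.pow 2))
  have hint := hcont.integrableOn_compact (μ := volume) (Ab_compact hG)
  have hAm : MeasurableSet (Ab G) := (Ab_compact hG).isClosed.measurableSet
  have hMm : MeasurableSet (M n) := Metric.isClosed_closedBall.measurableSet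
  rw [← integral_indicator hAm, Measure.volume_eq_prod, integral_prod _ (by
    rw [← Measure.volume_eq_prod]; exact (integrable_indicator_iff hAm).mpr hint),
    ← integral_indicator hMm, ← integral_const_mul]
  congr 1
  funext x
  by_cases hx : x ∈ M n
  · rw [indicator_of_mem hx, ← hq (G x) (D x) (hG.symm x hx) (hG.pos x hx) (hDs x hx) κ]
    have hSm : MeasurableSet {p : E n | ⟪(G x).inverse p, p⟫ ≤ 1} := by
      apply measurableSet_le
      · exact (Continuous.inner (by fun_prop) continuous_id).measurable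
      · exact measurable_const
    rw [← integral_indicator hSm]
    congr 1
    funext p
    by_cases hp : ⟪(G x).inverse p, p⟫ ≤ 1
    · rw [indicator_of_mem (show (x, p) ∈ Ab G from ⟨hx, hp⟩), indicator_of_mem (by exact hp)]
    · rw [indicator_of_notMem (show (x, p) ∉ Ab G from fun h => hp h.2),
        indicator_of_notMem (by exact hp)]
  · rw [indicator_of_notMem hx, mul_zero]
    rw [show (fun y => (Ab G).indicator (fun z : E n × E n =>
        1 / 2 * (⟪(G z.1).inverse z.2, z.2⟫ *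
        ⟪D z.1 ((G z.1).inverse z.2), (G z.1).inverse z.2⟫) -
        κ * ⟪D z.1 ((G z.1).inverse z.2), (G z.1).inverse z.2⟫ ^ 2) (x, y)) =
        fun _ => 0 from funext fun p => indicator_of_notMem (fun h => hx h.1) _]
    simp

/-- the basic inequality -/
theorem basic (hn : 0 < n) {G₂ : E n → E n →L[ℝ] E n} (hG : IsMetric G)
    (hE : ∀ x ∈ M n, ExpDiffeo G x) (hG₂ : IsMetric G₂)
    (ψ : E n → E n) (hψ : ContDiff ℝ ∞ ψ) (hψM : MapsTo ψ (M n) (M n))
    (hψb : ∀ x ∈ bM n, ψ x = x)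
    (hd : ∀ a ∈ bM n, ∀ b ∈ bM n, rdist G a b ≤ rdist G₂ a b) {ε : ℝ} (hε1 : ε ≤ 1)
    (hH : ∀ x ∈ M n, ∀ v, |⟪(pb ψ G₂ x - G x) v, v⟫| ≤ ε * ⟪G x v, v⟫) :
    0 ≤ ∫ x in M n, Real.sqrt (G x).det * (1 / 2 * (n + 2) * tr1 (G x) (pb ψ G₂ x - G x) -
        (1 - ε) / 8 * (2 * tr2 (G x) (pb ψ G₂ x - G x) + tr1 (G x) (pb ψ G₂ x - G x) ^ 2)) := by
  have hBc := pb_continuous ψ hψ hG₂.smooth.continuous
  obtain ⟨m, hm, hq⟩ := int_quart hn
  have hBs : ∀ x ∈ M n, ∀ u v, ⟪(pb ψ G₂ x - G x) u, v⟫ = ⟪(pb ψ G₂ x - G x) v, u⟫ := by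
    intro x hx u v
    rw [_root_.sub_apply, _root_.sub_apply, inner_sub_left, inner_sub_left, pb_inner, pb_inner,
      hG₂.symm _ (hψM hx), hG.symm x hx]
  have h1 := hq G (fun x => pb ψ G₂ x - G x) hG (hBc.sub hG.smooth.continuous) hBs ((1 - ε) / 8)
  have h2 := int_wFz_nonneg hG hE hG₂.smooth.continuous ψ hψ hψM hψb hd
  set Q : E n × E n → ℝ := fun z => 1 / 2 * (⟪(G z.1).inverse z.2, z.2⟫ *
        ⟪(pb ψ G₂ z.1 - G z.1) ((G z.1).inverse z.2), (G z.1).inverse z.2⟫) -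
        (1 - ε) / 8 * ⟪(pb ψ G₂ z.1 - G z.1) ((G z.1).inverse z.2), (G z.1).inverse z.2⟫ ^ 2
    with hQ
  have hQc : ContinuousOn Q (CM n) := by
    have h1 : ContinuousOn (fun z : E n × E n => (G z.1).inverse z.2) (CM n) := vl_contOn hG
    have h2 : ContinuousOn (fun z : E n × E n => pb ψ G₂ z.1 - G z.1) (CM n) :=
      ((hBc.sub hG.smooth.continuous).comp continuous_fst).continuousOn
    have h3 := (h2.clm_apply h1).inner (𝕜 := ℝ) h1
    have h4 := h1.inner (𝕜 := ℝ) (continuous_snd.continuousOn (s := CM n))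
    exact (continuousOn_const.mul (h4.mul h3)).sub (continuousOn_const.mul (h3.pow 2))
  have hcompInt : ∀ f : E n × E n → ℝ, ContinuousOn f (CM n) → IntegrableOn f (Ao G) := by
    intro f hf
    exact ((hf.mono (fun z hz => hz.1)).integrableOn_compact (Ab_compact hG)).mono_set Ao_sub
  have h3 : ∫ z in Ao G, dsq G z * Fz G (pb ψ G₂) z ≤ ∫ z in Ao G, Q z := by
    apply setIntegral_mono_on (hcompInt _ ((dsq_contOn hG).mul (Fz_contOn hG hBc)))
      (hcompInt _ hQc) (Ao_meas hG)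
    intro z hz
    exact wFz_le hG hz.1 hε1 (hH z.1 hz.1)
  have h4 : ∫ z in Ao G, Q z = ∫ z in Ab G, Q z := by
    symm
    apply setIntegral_eq_of_subset_of_forall_sdiff_eq_zero
      (Ab_compact hG).isClosed.measurableSet Ao_sub
    rintro z ⟨hz1, hz2⟩
    have h1 : dsq G z ≤ 0 := by
      by_contra h
      push Not at h
      exact hz2 ⟨hz1.1, h, hz1.2⟩
    have h2 : z.2 = 0 := by
      by_contra h
      exact absurd h1 (not_le.mpr (hG.inv_pos hz1.1 _ h))
    simp [hQ, h2]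
  have h5 : 0 ≤ m * ∫ x in M n, Real.sqrt (G x).det *
      (1 / 2 * (n + 2) * tr1 (G x) (pb ψ G₂ x - G x) -
        (1 - ε) / 8 * (2 * tr2 (G x) (pb ψ G₂ x - G x) + tr1 (G x) (pb ψ G₂ x - G x) ^ 2)) := by
    rw [← h1]
    calc (0 : ℝ) ≤ _ := h2
      _ ≤ _ := h3
      _ = _ := h4
  exact nonneg_of_mul_nonneg_right h5 hm

end KBR.CR
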